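import Mathlib
import Pool.Prelude.Def_F_458e953d
import Pool.Agent.helper56.SGE.Defs

/-!
# Definitions: area universality for triples and the class `∀∃ℝ`

The formulas `Fml` (quantifier-free, polynomial expressions with integer constants), their truth
`Fml.holds` and their codes `Fml.code` are those of `Pool.Agent.helper56.SGE.Defs`.
-/

set_option autoImplicit false

namespace Pool.Agent.helper14.AU

open N68a2faeb N793a5b8e Pool.Agent.helper56.SGE

/-- The area of the triangle with the vertices `a`, `b`, `c` in the plane. -/
noncomputable def area (a b c : ℝ × ℝ) : ℝ :=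
  |(b.1 - a.1) * (c.2 - a.2) - (c.1 - a.1) * (b.2 - a.2)| / 2

/-- `T` lists, without repetition, unordered triples `{i, j, k}` of vertices (natural numbers);
the triple `{i, j, k}` is written in the form `(i, j, k)` with `i < j < k`. -/
structure IsSystem (T : List (ℕ × ℕ × ℕ)) : Prop where
  lt : ∀ t ∈ T, t.1 < t.2.1 ∧ t.2.1 < t.2.2
  nodup : T.Nodup

/-- `T` is area-universal: for every assignment `A` of non-negative areas to the triples in `T`
there are points `p i` in the plane such that for every triple `{i, j, k}` in `T` the triangle with
the vertices `p i`, `p j`, `p k` has the area `A {i, j, k}`. -/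
def AreaUniversal (T : List (ℕ × ℕ × ℕ)) : Prop :=
  ∀ A : ℕ × ℕ × ℕ → ℝ, (∀ t ∈ T, 0 ≤ A t) →
    ∃ p : ℕ → ℝ × ℝ, ∀ t ∈ T, area (p t.1) (p t.2.1) (p t.2.2) = A t

/-- The number `n` in unary, followed by an end mark. -/
def unary (n : ℕ) : List Bool := List.replicate n true ++ [false]

/-- The code of a list of triples. -/
def code (T : List (ℕ × ℕ × ℕ)) : List Bool :=
  T.flatMap fun t => unary t.1 ++ (unary t.2.1 ++ unary t.2.2)

open Classical in
/-- **AREA UNIVERSALITY FOR TRIPLES**: the words that code a set of triples that is
area-universal. -/
noncomputable def TAU : DecisionProblem := fun w =>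
  decide (∃ T, code T = w ∧ IsSystem T ∧ AreaUniversal T)

open Classical in
/-- The truth of the sentences `∀ x ∃ y φ(x, y)` over the reals: the words that code a
quantifier-free formula `φ` such that for all real values of the variables with even numbers
there are real values of the variables with odd numbers for which `φ` holds. -/
noncomputable def UETR : DecisionProblem := fun w =>
  decide (∃ φ : Fml, φ.code = w ∧ ∀ x : ℕ → ℝ, ∃ y : ℕ → ℝ,
    (∀ i, y (2 * i) = x (2 * i)) ∧ φ.holds y)

/-- The class `∀∃ℝ`: the decision problems that reduce in polynomial time to `UETR`. -/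
def AER : DecisionComplexityClass := {L | ManyOneReducible L UETR}

end Pool.Agent.helper14.AU
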