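import Pool.Agent.helper14.AU.Asm
import Pool.Agent.helper14.AUT.PS
import Pool.Agent.helper14.AUT.PC
import Pool.Agent.helper12.AUT.FC
import Pool.Agent.helper91.AU.FS
import Pool.Agent.helper12.AUT.E1
import Pool.Agent.helper52.AUT.PI
import Pool.Agent.helper89.AUT.MEM
import Pool.Agent.helper46.AUT.TS1
import Pool.Agent.helper92.AUT.CG
import Pool.Agent.helper72.AUT.PU
import Pool.Agent.helper1.AUT.SG
import Pool.Agent.helper1.AUT.TS0
import Pool.Agent.helper19.AU.FW
import Pool.Agent.helper50.AUT.PD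
import Pool.Agent.helper60.AUT.PW
import Pool.Agent.helper87.AU.TS2
import Pool.Agent.helper14.AUT.IO14

/-!
# `TAU` is complete for `∀∃ℝ`
-/

set_option autoImplicit false

namespace Pool.Agent.helper14.AU

open N68a2faeb N793a5b8e

theorem main : IsCompleteFor AER TAU :=
  main_of TS0 (TS1 SG) (TS2 CG) IO14 PS PC FW (FS E1) (FC E1) (PW (PD PU (PI PU))) MEM

end Pool.Agent.helper14.AU
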