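import Pool.Agent.helper14.AU.Spec
import Pool.Agent.helper81.PolyComp

/-!
# Assembly: `TAU` is complete for `∀∃ℝ`
-/

set_option autoImplicit false

namespace Pool.Agent.helper14.AU

open N68a2faeb N793a5b8e Pool.Agent.helper56.SGE Pool.Agent.helper56.SGE.QSys
  Pool.Agent.helper98.Tsei Pool.Agent.H54.PT

lemma unary_inj_aux : ∀ (m n : ℕ) (l l' : List Bool), unary m ++ l = unary n ++ l' →
    m = n ∧ l = l' := by
  intro m
  induction m with
  | zero =>
    intro n l l' h
    cases n with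
    | zero => simpa [unary] using h
    | succ n => simp [unary, List.replicate_succ] at h
  | succ m ih =>
    intro n l l' h
    cases n with
    | zero => simp [unary, List.replicate_succ] at h
    | succ n =>
      have h' : unary m ++ l = unary n ++ l' := by
        simpa [unary, List.replicate_succ] using h
      obtain ⟨h1, h2⟩ := ih n l l' h'
      exact ⟨by rw [h1], h2⟩

theorem code_inj : ∀ T T' : List (ℕ × ℕ × ℕ), code T = code T' → T = T' := by
  intro T
  induction T with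
  | nil =>
    intro T' h
    cases T' with
    | nil => rfl
    | cons t T' =>
      exfalso
      have : (code (t :: T')).length = 0 := by rw [← h]; rfl
      simp [code, unary] at this
  | cons t T ih =>
    intro T' h
    cases T' with
    | nil =>
      exfalso
      have : (code (t :: T)).length = 0 := by rw [h]; rfl
      simp [code, unary] at this
    | cons t' T' =>
      have e : ∀ (s : ℕ × ℕ × ℕ) (S : List (ℕ × ℕ × ℕ)), code (s :: S) =
          unary s.1 ++ (unary s.2.1 ++ (unary s.2.2 ++ code S)) := by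
        intro s S
        simp [code, List.append_assoc]
      rw [e, e] at h
      obtain ⟨h1, h2⟩ := unary_inj_aux _ _ _ _ h
      obtain ⟨h3, h4⟩ := unary_inj_aux _ _ _ _ h2
      obtain ⟨h5, h6⟩ := unary_inj_aux _ _ _ _ h4
      have h7 : t = t' := Prod.ext h1 (Prod.ext h3 h5)
      rw [h7, ih T' h6]

theorem tau_code (T : List (ℕ × ℕ × ℕ)) : TAU (code T) = true ↔ IsSystem T ∧ AreaUniversal T := by
  simp only [TAU, decide_eq_true_eq]
  constructor
  · rintro ⟨T', h, h1, h2⟩
    rw [code_inj T' T h] at h1 h2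
    exact ⟨h1, h2⟩
  · rintro ⟨h1, h2⟩
    exact ⟨T, rfl, h1, h2⟩

theorem red_correct (hTS0 : TS0_stmt) (hTS1 : TS1_stmt) (hTS2 : TS2_stmt) (hIO : IO_stmt)
    (hPS : PS_stmt) (hPC : PC_stmt) (hFW : FW_stmt) (hFS : FS_stmt) (hFC : FC_stmt)
    (w : List Bool) : UETR w = true ↔ TAU (code (sysW w)) = true := by
  obtain ⟨hwf, hM⟩ := hFW w
  have hok := hIO (sysU w) (MU w) hwf hM
  rw [tau_code]
  constructor
  · intro h
    refine ⟨hTS0 _ _ _ hok, hTS2 _ _ _ hok fun α β hαβ => ?_⟩
    apply hPC (sysU w) (MU w) hwf hM α β hαβ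
    obtain ⟨K, hK⟩ := hFC w h (fun r => α (23 + 13 * r)) (fun r => β (23 + 13 * r))
      (fun r => hαβ _)
    exact ⟨K, fun κ h1 h2 => hK κ h1 h2⟩
  · rintro ⟨-, h⟩
    apply hFS w
    intro α β hαβ
    obtain ⟨P, hP⟩ := hTS1 _ _ _ hok h (fun g => α ((g - 23) / 13)) (fun g => β ((g - 23) / 13))
      (fun g => ⟨(hαβ _).1.le, (hαβ _).2.le⟩)
    obtain ⟨z, κ, h1, h2, h3⟩ := hPS (sysU w) (MU w) hwf hM _ _ P hP
    refine ⟨z, κ, h1, h2, fun r hr => ?_⟩
    have := h3 r hr
    have e : (23 + 13 * r - 23) / 13 = r := by omega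
    rw [e] at this
    exact this

theorem main_of (hTS0 : TS0_stmt) (hTS1 : TS1_stmt) (hTS2 : TS2_stmt) (hIO : IO_stmt)
    (hPS : PS_stmt) (hPC : PC_stmt) (hFW : FW_stmt) (hFS : FS_stmt) (hFC : FC_stmt)
    (hPW : PW_stmt) (hMEM : MEM_stmt) : IsCompleteFor AER TAU := by
  refine ⟨hMEM, fun L hL => ?_⟩
  obtain ⟨f, hf, hf'⟩ := hL
  refine ⟨_, Pool.Agent.helper81.PolyComp.isPolyTime_comp hf hPW, fun x => ?_⟩
  rw [hf', Bool.eq_iff_iff]
  exact red_correct hTS0 hTS1 hTS2 hIO hPS hPC hFW hFS hFC (f x)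

end Pool.Agent.helper14.AU
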