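import Pool.Agent.helper53.AU.SpecG3

/-!
# Project au, module C7: counting in case (c)
-/

namespace Pool.Agent.helper53.AU

open scoped Classical

/-- an action which is free apart from one fixed point -/
theorem C7_burnside {G Y : Type} [Group G] [MulAction G Y] [Finite G] [Finite Y] (y0 : Y)
    (h0 : ∀ g : G, g • y0 = y0) (h : ∀ g : G, g ≠ 1 → ∀ y : Y, g • y = y → y = y0) :
    Nat.card Y ≡ 1 [MOD Nat.card G] := by
  have := Fintype.ofFinite G
  have := Fintype.ofFinite Y
  have hb := MulAction.sum_card_fixedBy_eq_card_orbits_mul_card_group G Y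
  have h2 : ∀ g ∈ (Finset.univ.erase (1 : G)), Fintype.card (MulAction.fixedBy Y g) = 1 := by
    intro g hg
    rw [Fintype.card_eq_one_iff]
    refine ⟨⟨y0, h0 g⟩, fun y => Subtype.ext (h g (Finset.ne_of_mem_erase hg) y.1 y.2)⟩
  rw [← Finset.add_sum_erase _ _ (Finset.mem_univ (1 : G)), Finset.sum_congr rfl h2,
    Finset.sum_const, Finset.card_erase_of_mem (Finset.mem_univ _), Finset.card_univ, smul_eq_mul,
    mul_one] at hb
  have h1' : ∀ F : Fintype (MulAction.fixedBy Y (1 : G)),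
      @Fintype.card (MulAction.fixedBy Y (1 : G)) F = Fintype.card Y := by
    intro F
    exact @Fintype.card_congr _ _ F _ ⟨fun y => y.1, fun y => ⟨y, one_smul _ _⟩, fun _ => rfl,
      fun _ => rfl⟩
  rw [h1'] at hb
  rw [Nat.card_eq_fintype_card, Nat.card_eq_fintype_card]
  have hpos : 0 < Fintype.card G := Fintype.card_pos
  have h3 : Fintype.card Y + Fintype.card G =
      Fintype.card (Quotient (MulAction.orbitRel G Y)) * Fintype.card G + 1 := by omega
  have h4 : Fintype.card Y + Fintype.card G ≡ Fintype.card Y [MOD Fintype.card G] := by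
    simp [Nat.ModEq]
  have h5 : Fintype.card (Quotient (MulAction.orbitRel G Y)) * Fintype.card G + 1 ≡ 1
      [MOD Fintype.card G] := by
    simp [Nat.ModEq, Nat.add_mod]
  exact h4.symm.trans (h3 ▸ h5)

/-- number of conjugates under a subgroup -/
theorem C7_count {L : Type} [Group L] [Finite L] (H : Subgroup L) (τ : L) :
    Nat.card {s : L // ∃ g ∈ H, g * τ * g⁻¹ = s} * Nat.card {g : L // g ∈ H ∧ g * τ = τ * g} =
      Nat.card H := by
  let f : H → {s : L // ∃ g ∈ H, g * τ * g⁻¹ = s} := fun g => ⟨g * τ * (g : L)⁻¹, g, g.2, rfl⟩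
  have := Fintype.ofFinite {s : L // ∃ g ∈ H, g * τ * g⁻¹ = s}
  have e1 := Nat.card_congr (Equiv.sigmaFiberEquiv f)
  rw [Nat.card_sigma] at e1
  have e2 : ∀ s : {s : L // ∃ g ∈ H, g * τ * g⁻¹ = s}, Nat.card {g : H // f g = s} =
      Nat.card {g : L // g ∈ H ∧ g * τ = τ * g} := by
    rintro ⟨s, g₀, hg₀, rfl⟩
    refine Nat.card_congr
      { toFun := fun g => ⟨g₀⁻¹ * g.1, H.mul_mem (H.inv_mem hg₀) g.1.2, ?_⟩
        invFun := fun h => ⟨⟨g₀ * h.1, H.mul_mem hg₀ h.2.1⟩, ?_⟩
        left_inv := fun g => by simp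
        right_inv := fun h => by simp }
    · have h1 : ((g.1 : H) : L) * τ * ((g.1 : H) : L)⁻¹ = g₀ * τ * g₀⁻¹ :=
        congrArg Subtype.val g.2
      have h2 : ((g.1 : H) : L) * τ = g₀ * τ * g₀⁻¹ * ((g.1 : H) : L) :=
        calc ((g.1 : H) : L) * τ = ((g.1 : H) : L) * τ * ((g.1 : H) : L)⁻¹ * ((g.1 : H) : L) := by
              group
          _ = g₀ * τ * g₀⁻¹ * ((g.1 : H) : L) := congrArg (· * ((g.1 : H) : L)) h1
      rw [mul_assoc, h2]; group
    · apply Subtype.ext
      show g₀ * h.1 * τ * (g₀ * h.1)⁻¹ = g₀ * τ * g₀⁻¹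
      rw [mul_assoc g₀ h.1 τ, h.2.2]; group
  rw [Finset.sum_congr rfl (fun s _ => e2 s), Finset.sum_const, Finset.card_univ, smul_eq_mul,
    ← Nat.card_eq_fintype_card] at e1
  exact e1

section

variable {L Ω : Type} [Group L] [MulAction L Ω] {A E : Subgroup L} {t ρ : L}

/-- `E` is generated by the involutions commuting with `ρ` -/
theorem C7_closure (hC2 : C2_stmt) (hC : CaseC L Ω A E t ρ) :
    E = Subgroup.closure {s : L | IsInv s ∧ s * ρ = ρ * s} := by
  have := hC.LL.finL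
  have hle : Subgroup.closure {s : L | IsInv s ∧ s * ρ = ρ * s} ≤ E := by
    rw [Subgroup.closure_le]
    rintro s ⟨hs, hs'⟩
    exact (hC2 L Ω A E t ρ hC).2.2 s hs hs'
  refine le_antisymm ?_ hle
  have hnorm : ((Subgroup.closure {s : L | IsInv s ∧ s * ρ = ρ * s}).subgroupOf E).Normal := by
    rw [Subgroup.normal_subgroupOf_iff_le_normalizer hle, Subgroup.le_normalizer_closure_iff]
    rintro x hx s ⟨⟨hs1, hs2⟩, hs'⟩
    apply Subgroup.subset_closure
    refine ⟨⟨?_, ?_⟩, ?_⟩
    · calc x * s * x⁻¹ * (x * s * x⁻¹) = x * (s * s) * x⁻¹ := by group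
        _ = 1 := by rw [hs1]; group
    · intro h
      apply hs2
      have : s = x⁻¹ * (x * s * x⁻¹) * x := by group
      rw [this, h]; group
    · have h1 := hC.Ecent x hx
      have h2 : x⁻¹ * ρ = ρ * x⁻¹ := by
        rw [inv_mul_eq_iff_eq_mul, ← mul_assoc, h1]; group
      rw [mul_assoc, h2, ← mul_assoc, mul_assoc x s ρ, hs', ← mul_assoc x ρ s, h1]; group
  have hsimple := hC.simple.1
  rcases hsimple.eq_bot_or_eq_top_of_normal _ hnorm with h | h
  · exfalso
    have : Fact (Nat.Prime 2) := ⟨Nat.prime_two⟩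
    obtain ⟨s, hs⟩ := exists_prime_orderOf_dvd_card' (G := E) 2 hC.even.two_dvd
    have hs1 : s ≠ 1 := by
      intro h1; rw [h1, orderOf_one] at hs; norm_num at hs
    have hs2 : s * s = 1 := by
      rw [← pow_two, ← hs]; exact pow_orderOf_eq_one s
    apply hs1
    have : s ∈ ((Subgroup.closure {s : L | IsInv s ∧ s * ρ = ρ * s}).subgroupOf E) := by
      rw [Subgroup.mem_subgroupOf]
      apply Subgroup.subset_closure
      exact ⟨⟨congrArg Subtype.val hs2, fun h1 => hs1 (Subtype.ext h1)⟩, hC.Ecent s s.2⟩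
    rw [h] at this
    exact this
  · rwa [Subgroup.subgroupOf_eq_top] at h

/-- case (c) for the other elements of prime order -/
theorem C7_other (hM3 : M3_stmt) (hC1 : C1_stmt) (hTG : TGlt (Nat.card L))
    (hC : CaseC L Ω A E t ρ) {ρ' : L} (hm : ρ' ∈ oddPart A) (hp : (orderOf ρ').Prime)
    (hc : t * ρ' = ρ' * t) : ∃ E' : Subgroup L, CaseC L Ω A E' t ρ' := by
  obtain ⟨E', h1, h2, h3, h4⟩ := hC1 L Ω A t ρ' hC.LL hC.dih hm hp hc hC.ne
  have h5 := hM3 L Ω A t ρ' hC.LL hC.dih hm hp hc E' h1 h2 h3 h4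
  exact ⟨E', ⟨hC.LL, hC.dih, hm, hp, hc, hC.ne, h1, h2, h3, h4, fun α => (h5 α).1,
    fun α => hTG E' _ _ (h5 α).1 (h5 α).2⟩⟩

end

theorem C7 (hAB : AB_stmt) (hPLL : PLL_stmt) (hP1 : P1_stmt) (hP4 : P4_stmt) (hP5 : P5_stmt)
    (hNH : NH_stmt) (hM3 : M3_stmt) (hC1 : C1_stmt) (hC2 : C2_stmt) (hC3 : C3_stmt)
    (hC6 : C6_stmt) : C7_stmt := by
  intro L Ω _ _ A E Ac t ρ τ hC hTG hAc hτA hτ
  have finL := hC.LL.finL
  have finΩ := hC.LL.finΩ
  have hPL := hPLL L Ω A hC.LL
  have hcyc := hC.LL.cyc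
  have hAcomm : ∀ a ∈ A, ∀ b ∈ A, a * b = b * a := by
    intro a ha b hb
    let _ := hcyc.commGroup
    exact congrArg Subtype.val (mul_comm (⟨a, ha⟩ : A) ⟨b, hb⟩)
  have hoddA : oddPart A ≤ A := by
    rw [oddPart, Subgroup.closure_le]; exact fun a ha => ha.1
  have hAcodd : Ac ≤ oddPart A := fun a ha => ((hAc a).1 ha).1
  have hAcA : Ac ≤ A := hAcodd.trans hoddA
  have hAct : ∀ a ∈ Ac, t * a = a * t := fun a ha => ((hAc a).1 ha).2
  have hρAc : ρ ∈ Ac := (hAc ρ).2 ⟨hC.mem, hC.comm⟩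
  have hncard : Nat.card {a : L // a ∈ oddPart A ∧ t * a = a * t} = Nat.card Ac :=
    Nat.card_congr (Equiv.subtypeEquivRight fun a => (hAc a).symm)
  have hpow : ∀ x ∈ Ac, x ^ Nat.card Ac = 1 := by
    intro x hx
    exact congrArg Subtype.val (pow_card_eq_one' (x := (⟨x, hx⟩ : Ac)))
  -- involutions commuting with an element of prime order of `Ac` commute with `Ac`
  have hinv : ∀ ρ' ∈ Ac, (orderOf ρ').Prime → ∀ s : L, IsInv s → s * ρ' = ρ' * s →
      ∀ x ∈ Ac, x * s = s * x := by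
    intro ρ' hρ' hp s hs hs' x hx
    obtain ⟨E', hC'⟩ := C7_other hM3 hC1 hTG hC (hAcodd hρ') hp (hAct ρ' hρ')
    have hsE := (hC2 L Ω A E' t ρ' hC').2.2 s hs hs'
    exact (hC3 L Ω A E' t ρ' hC').2.1 x (hAcodd hx) (hAct x hx) s hsE
  have hconjinv : ∀ (g s : L), IsInv s → IsInv (g * s * g⁻¹) := by
    rintro g s ⟨h1, h2⟩
    refine ⟨?_, ?_⟩
    · calc g * s * g⁻¹ * (g * s * g⁻¹) = g * (s * s) * g⁻¹ := by group
        _ = 1 := by rw [h1]; group
    · intro h
      apply h2
      have : s = g⁻¹ * (g * s * g⁻¹) * g := by group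
      rw [this, h]; group
  have horder : ∀ (g x : L), orderOf (g * x * g⁻¹) = orderOf x := by
    intro g x
    have := orderOf_injective (MulAut.conj g).toMonoidHom (MulAut.conj g).injective x
    simpa using this
  -- `Ac` is a TI subgroup
  have hTI : ∀ (g ρ'' : L), ρ'' ∈ Ac → (orderOf ρ'').Prime → g * ρ'' * g⁻¹ ∈ Ac →
      ∀ x ∈ Ac, g * x * g⁻¹ ∈ Ac := by
    intro g ρ'' hρ'' hp hρ' x hx
    have hp' : (orderOf (g * ρ'' * g⁻¹)).Prime := by rw [horder]; exact hp
    obtain ⟨E', hC'⟩ := C7_other hM3 hC1 hTG hC (hAcodd hρ') hp' (hAct _ hρ')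
    have h6 := hC6 L Ω A E' t _ hC' (g * x * g⁻¹) ?_ ?_
    · rw [hncard] at h6
      rw [hAc]
      apply h6.1
      rw [conj_pow, hpow x hx]; group
    · have h1 : x * ρ'' = ρ'' * x := hAcomm x (hAcA hx) ρ'' (hAcA hρ'')
      calc g * x * g⁻¹ * (g * ρ'' * g⁻¹) = g * (x * ρ'') * g⁻¹ := by group
        _ = g * (ρ'' * x) * g⁻¹ := by rw [h1]
        _ = g * ρ'' * g⁻¹ * (g * x * g⁻¹) := by group
    · have hle : E' ≤ Subgroup.centralizer {g * x * g⁻¹} := by
        rw [C7_closure hC2 hC', Subgroup.closure_le]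
        rintro s ⟨hs, hs'⟩
        rw [SetLike.mem_coe, Subgroup.mem_centralizer_singleton_iff]
        have h1 : IsInv (g⁻¹ * s * g) := by
          have := hconjinv g⁻¹ s hs
          rwa [inv_inv] at this
        have h2 : g⁻¹ * s * g * ρ'' = ρ'' * (g⁻¹ * s * g) := by
          calc g⁻¹ * s * g * ρ'' = g⁻¹ * (s * (g * ρ'' * g⁻¹)) * g := by group
            _ = g⁻¹ * (g * ρ'' * g⁻¹ * s) * g := by rw [hs']
            _ = ρ'' * (g⁻¹ * s * g) := by group
        have h3 := hinv ρ'' hρ'' hp _ h1 h2 x hx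
        calc s * (g * x * g⁻¹) = g * ((g⁻¹ * s * g) * x) * g⁻¹ := by group
          _ = g * (x * (g⁻¹ * s * g)) * g⁻¹ := by rw [h3]
          _ = g * x * g⁻¹ * s := by group
      intro y hy
      have := hle hy
      rw [Subgroup.mem_centralizer_singleton_iff] at this
      exact this.symm
  have hmemN : ∀ g : L, (∀ x ∈ Ac, g * x * g⁻¹ ∈ Ac) → g ∈ Subgroup.normalizer (Ac : Set L) :=
    fun g h => Subgroup.mem_normalizer_fintype h
  have hNmem : ∀ g ∈ Subgroup.normalizer (Ac : Set L), ∀ x ∈ Ac, g * x * g⁻¹ ∈ Ac :=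
    fun g hg x hx => (Subgroup.mem_normalizer_iff.1 hg x).1 hx
  -- the subgroups `C(τ)` and `E` of the normaliser
  obtain ⟨hABmem, _, _, hABodd, _, hABcyc, _, _, _, _⟩ := hAB L A hcyc
  have hCτ : ∀ g : L, g * τ = τ * g → g ∈ Subgroup.normalizer (Ac : Set L) := by
    intro g hg
    have h1 := (hP5 L Ω A hPL τ hτA hτ).1 g hg
    obtain ⟨_, _, _, _, _, _, _, _, _, h2⟩ := hAB L (oddPart A) hABcyc
    exact hmemN g (h2 Ac hAcodd g h1)
  have hEN : E ≤ Subgroup.normalizer (Ac : Set L) := by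
    intro x hx
    refine hmemN x fun a ha => ?_
    have h1 := (hC3 L Ω A E t ρ hC).2.1 a (hAcodd ha) (hAct a ha) x hx
    rw [← h1, mul_inv_cancel_right]; exact ha
  have hτρ : τ * ρ = ρ * τ := hAcomm τ hτA ρ (hAcA hρAc)
  have hτE : τ ∈ E := (hC2 L Ω A E t ρ hC).2.2 τ hτ hτρ
  have hsets : ∀ s : L, (∃ g ∈ Subgroup.normalizer (Ac : Set L), g * τ * g⁻¹ = s) ↔
      ∃ g ∈ E, g * τ * g⁻¹ = s := by
    intro s
    constructor
    · rintro ⟨g, hg, rfl⟩
      have hρ' := hNmem g hg ρ hρAc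
      have hp' : (orderOf (g * ρ * g⁻¹)).Prime := by rw [horder]; exact hC.pr
      have hs := hconjinv g τ hτ
      have hs1 : g * τ * g⁻¹ * (g * ρ * g⁻¹) = g * ρ * g⁻¹ * (g * τ * g⁻¹) := by
        calc g * τ * g⁻¹ * (g * ρ * g⁻¹) = g * (τ * ρ) * g⁻¹ := by group
          _ = g * (ρ * τ) * g⁻¹ := by rw [hτρ]
          _ = g * ρ * g⁻¹ * (g * τ * g⁻¹) := by group
      have hs2 := hinv _ hρ' hp' _ hs hs1 ρ hρAc
      have hsE : g * τ * g⁻¹ ∈ E := (hC2 L Ω A E t ρ hC).2.2 _ hs hs2.symm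
      obtain ⟨α⟩ := hPL.nonempty
      have hPLE := hPLL _ _ _ (hC.EC α)
      obtain ⟨x, hx⟩ := (hP1 _ _ _ hPLE).2 ⟨τ, hτE⟩ ⟨g * τ * g⁻¹, hsE⟩
        ⟨Subtype.ext hτ.1, fun h => hτ.2 (congrArg Subtype.val h)⟩
        ⟨Subtype.ext hs.1, fun h => hs.2 (congrArg Subtype.val h)⟩
      exact ⟨x, x.2, congrArg Subtype.val hx⟩
    · rintro ⟨g, hg, rfl⟩
      exact ⟨g, hEN hg, rfl⟩
  have hcN := C7_count (Subgroup.normalizer (Ac : Set L)) τ
  have hcE := C7_count E τ
  have hc1 : Nat.card {s : L // ∃ g ∈ Subgroup.normalizer (Ac : Set L), g * τ * g⁻¹ = s} =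
      Nat.card {s : L // ∃ g ∈ E, g * τ * g⁻¹ = s} :=
    Nat.card_congr (Equiv.subtypeEquivRight hsets)
  have hc2 : Nat.card {g : L // g ∈ Subgroup.normalizer (Ac : Set L) ∧ g * τ = τ * g} =
      Nat.card {g : L // g * τ = τ * g} :=
    Nat.card_congr (Equiv.subtypeEquivRight fun g => ⟨fun h => h.2, fun h => ⟨hCτ g h, h⟩⟩)
  rw [hc1, hc2] at hcN
  refine ⟨?_, ?_⟩
  · -- the congruence
    obtain ⟨α⟩ := hPL.nonempty
    obtain ⟨ν, _, _, hν1, hν2, _⟩ := hP4 L Ω A hPL
    have hνdvd : ν ∣ Nat.card (MulAction.stabilizer L α) := ⟨_, by rw [mul_comm]; exact (hν2 α).symm⟩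
    have hcard : Nat.card (Subgroup.normalizer (Ac : Set L)) =
        Nat.card Ac * (2 * Nat.card (A ⊓ E : Subgroup L) * ν *
          Nat.card (MulAction.stabilizer E α)) := by
      have e1 := hν1 τ hτ
      have e2 := hC.LL.cardA
      have e3 := (hC3 L Ω A E t ρ hC).2.2.2
      rw [hncard] at e3
      have e4 : Nat.card {g : L // g ∈ E ∧ g * τ = τ * g} = Nat.card (MulAction.orbit E α) := by
        rw [← (hC.EG α).cent ⟨τ, hτE⟩
          ⟨Subtype.ext hτ.1, fun h => hτ.2 (congrArg Subtype.val h)⟩]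
        refine Nat.card_congr
          { toFun := fun g => ⟨⟨g.1, g.2.1⟩, Subtype.ext g.2.2⟩
            invFun := fun g => ⟨g.1.1, g.1.2, congrArg Subtype.val g.2⟩
            left_inv := fun g => rfl
            right_inv := fun g => rfl }
      have e5 : Nat.card (MulAction.orbit E α) * Nat.card (MulAction.stabilizer E α) =
          Nat.card E := by
        rw [← Nat.card_prod]
        exact Nat.card_congr (MulAction.orbitProdStabilizerEquivGroup E α)
      have hpos : 0 < Nat.card (MulAction.orbit E α) :=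
        Nat.card_pos_iff.2 ⟨⟨⟨α, MulAction.mem_orbit_self α⟩⟩, inferInstance⟩
      rw [e4, mul_comm] at hcE
      have e6 : Nat.card {s : L // ∃ g ∈ E, g * τ * g⁻¹ = s} =
          Nat.card (MulAction.stabilizer E α) :=
        Nat.eq_of_mul_eq_mul_left hpos (hcE.trans e5.symm)
      rw [← hcN, e6, e1, ← e2, ← e3]
      ring
    have hposAc : 0 < Nat.card Ac := Nat.card_pos
    have hcop : Nat.Coprime (Nat.card Ac)
        (Nat.card (Subgroup.normalizer (Ac : Set L)) / Nat.card Ac) := by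
      rw [hcard, Nat.mul_div_cancel_left _ hposAc]
      have hAcdvd : Nat.card Ac ∣ Nat.card Ω := by
        rw [← hC.LL.cardA]
        exact Dvd.dvd.mul_left (Subgroup.card_dvd_of_le hAcA) 2
      have hcopr : Nat.Coprime (Nat.card Ac) (Nat.card (MulAction.stabilizer L α)) :=
        ((hC.LL.copr α).symm).coprime_dvd_left hAcdvd
      have hoddAc : Odd (Nat.card Ac) := hABodd.of_dvd_nat (Subgroup.card_dvd_of_le hAcodd)
      have h1 : Nat.Coprime (Nat.card Ac) 2 := hoddAc.coprime_two_right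
      have h2 : Nat.Coprime (Nat.card Ac) (Nat.card (A ⊓ E : Subgroup L)) := by
        have := (hC3 L Ω A E t ρ hC).2.2.1
        rwa [hncard] at this
      have h3 : Nat.Coprime (Nat.card Ac) ν := hcopr.coprime_dvd_right hνdvd
      have h4 : Nat.Coprime (Nat.card Ac) (Nat.card (MulAction.stabilizer E α)) := by
        refine hcopr.coprime_dvd_right ?_
        have : Nat.card (MulAction.stabilizer E α) =
            Nat.card ((MulAction.stabilizer E α).map E.subtype) :=
          Nat.card_congr ((MulAction.stabilizer E α).equivMapOfInjective _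
            E.subtype_injective).toEquiv
        rw [this]
        apply Subgroup.card_dvd_of_le
        rintro _ ⟨x, hx, rfl⟩
        exact hx
      exact ((h1.mul_right h2).mul_right h3).mul_right h4
    have hHall := hNH L Ac (Subgroup.normalizer (Ac : Set L)) Subgroup.le_normalizer
      (fun h hh x hx => hNmem h hh x hx) hcop
    have hres : Nat.card (L ⧸ (Subgroup.normalizer (Ac : Set L))) ≡ 1 [MOD Nat.card Ac] := by
      refine C7_burnside (G := Ac) ((1 : L) : L ⧸ Subgroup.normalizer (Ac : Set L)) ?_ ?_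
      · intro g
        show (((g : L) * 1 : L) : L ⧸ Subgroup.normalizer (Ac : Set L)) = ((1 : L) : _)
        rw [QuotientGroup.eq]
        rw [mul_one, mul_one]
        exact Subgroup.inv_mem _ (Subgroup.le_normalizer g.2)
      · intro a ha y
        induction y using QuotientGroup.induction_on with
        | H g =>
        intro hy
        -- a power of prime order
        have hne : orderOf a ≠ 1 := fun h => ha (orderOf_eq_one_iff.1 h)
        obtain ⟨p, hp, hpd⟩ := Nat.exists_prime_and_dvd hne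
        have hopos : 0 < orderOf a := orderOf_pos a
        have hob : orderOf (a ^ (orderOf a / p)) = p :=
          orderOf_pow_orderOf_div hopos.ne' hpd
        have hfix : (a ^ (orderOf a / p)) • ((g : L) : L ⧸ Subgroup.normalizer (Ac : Set L)) =
            ((g : L) : L ⧸ Subgroup.normalizer (Ac : Set L)) := by
          have : ∀ k : ℕ, (a ^ k) • ((g : L) : L ⧸ Subgroup.normalizer (Ac : Set L)) =
              ((g : L) : L ⧸ Subgroup.normalizer (Ac : Set L)) := by
            intro k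
            induction k with
            | zero => rw [pow_zero, one_smul]
            | succ k ih => rw [pow_succ, mul_smul, hy, ih]
          exact this _
        obtain ⟨b, hb⟩ : ∃ b : Ac, b = a ^ (orderOf a / p) := ⟨_, rfl⟩
        rw [← hb] at hob hfix
        have h1 : (((b : L) * g : L) : L ⧸ Subgroup.normalizer (Ac : Set L)) = ((g : L) : _) := hfix
        rw [eq_comm, QuotientGroup.eq] at h1
        have h2 : g⁻¹ * b * g ∈ Ac := by
          refine hHall _ (by rw [mul_assoc]; exact h1) ?_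
          have := conj_pow (i := Nat.card Ac) (a := g⁻¹) (b := (b : L))
          rw [inv_inv] at this
          rw [this, hpow _ b.2]; group
        have hbo : orderOf (b : L) = p := by rw [Subgroup.orderOf_coe, hob]
        have h3 : (orderOf (g⁻¹ * (b : L) * g)).Prime := by
          have := horder g⁻¹ (b : L)
          rw [inv_inv] at this
          rw [this, hbo]; exact hp
        have h4 : g * (g⁻¹ * (b : L) * g) * g⁻¹ ∈ Ac := by
          have : g * (g⁻¹ * (b : L) * g) * g⁻¹ = b := by group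
          rw [this]; exact b.2
        have h5 := hmemN g (hTI g _ h2 h3 h4)
        rw [QuotientGroup.eq, mul_one]
        exact Subgroup.inv_mem _ h5
    exact hres
  · rw [← hcN, ← hcE]; ring

end Pool.Agent.helper53.AU
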