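import Pool.Agent.helper53.AU.SpecG3

/-!
# Project au, module G4: arithmetic of (11.a)
-/

namespace Pool.Agent.helper53.AU

theorem G4 : G4_stmt := by
  intro c b E hc _ hE hb hmod
  have h27 : 27 ≤ 3 ^ c := by
    calc 27 = 3 ^ 3 := by norm_num
      _ ≤ 3 ^ c := Nat.pow_le_pow_right (by norm_num) hc
  have hE7 : 7 ≤ E := by omega
  have hhalf : (3 ^ c - 1) / 2 = 2 * E - 1 := by omega
  rw [hhalf] at hb ⊢
  have hbpos : 0 < b := Nat.pos_of_dvd_of_pos hb (by omega)
  have hble : b ≤ 2 * E - 1 := Nat.le_of_dvd (by omega) hb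
  -- `E ∣ b + 1`
  have h3 : 3 ^ c = 4 * E - 1 := by omega
  have hdvd : E ∣ b + 1 := by
    have h1 : 3 ^ c * b + b = 4 * E * b := by
      rw [h3]
      have : (4 * E - 1) * b + b = (4 * E - 1 + 1) * b := by ring
      rw [this]; congr 1; omega
    have h2 : 3 ^ c * b + b ≡ 1 + b [MOD E] := hmod.add_right b
    rw [h1] at h2
    have h4 : 4 * E * b ≡ 0 [MOD E] := by
      apply (Nat.modEq_zero_iff_dvd).2
      exact ⟨4 * b, by ring⟩
    have h5 : 1 + b ≡ 0 [MOD E] := h2.symm.trans h4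
    rw [add_comm]
    exact (Nat.modEq_zero_iff_dvd).1 h5
  obtain ⟨j, hj⟩ := hdvd
  have hj1 : j = 1 ∨ j = 2 := by
    have hj0 : 0 < j := by
      rcases Nat.eq_zero_or_pos j with h | h
      · rw [h] at hj; omega
      · exact h
    have hj3 : j < 3 := by
      by_contra hcon
      have : E * 3 ≤ E * j := Nat.mul_le_mul_left E (by omega)
      omega
    omega
  rcases hj1 with h | h
  · exfalso
    rw [h, mul_one] at hj
    have hb' : b = E - 1 := by omega
    rw [hb'] at hb
    have h6 : E - 1 ∣ 2 * E - 1 - 2 * (E - 1) := Nat.dvd_sub hb (Dvd.intro_left 2 rfl)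
    have h7 : 2 * E - 1 - 2 * (E - 1) = 1 := by omega
    rw [h7] at h6
    have := Nat.le_of_dvd (by norm_num) h6
    omega
  · rw [h] at hj; omega

end Pool.Agent.helper53.AU
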