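import Pool.Agent.helper53.AU.SpecG1

/-!
# Project au, module SR: Schur's theorem on S-rings
-/

namespace Pool.Agent.helper53.AU

open scoped Classical

/-! ## matrices of convolution operators -/

section Alg

variable {D : Type} [Group D] [Fintype D] [DecidableEq D] {r : ℕ} [Fact r.Prime]

/-- permutation matrices of the right regular representation -/
noncomputable def SR_P (r : ℕ) {D : Type} [Group D] [Fintype D] (d : D) : Matrix D D (ZMod r) :=
  Matrix.of fun u v => if u⁻¹ * v = d then 1 else 0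

theorem SR_P_mul (d d' : D) : SR_P r d * SR_P r d' = SR_P r (d * d') := by
  ext u v
  simp only [SR_P, Matrix.mul_apply, Matrix.of_apply]
  rw [Finset.sum_eq_single (u * d)]
  · rw [if_pos (by group), one_mul]
    congr 1
    rw [eq_iff_iff]
    constructor
    · intro h; rw [← h]; group
    · intro h; rw [mul_inv_rev, mul_assoc, h]; group
  · intro w _ hw
    rw [if_neg, zero_mul]
    intro h; exact hw (by rw [← h]; group)
  · intro h; exact absurd (Finset.mem_univ _) h

theorem SR_P_one : SR_P r (1 : D) = 1 := by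
  ext u v
  simp only [SR_P, Matrix.of_apply, Matrix.one_apply]
  congr 1
  rw [eq_iff_iff, inv_mul_eq_one]

theorem SR_P_pow (d : D) (k : ℕ) : SR_P r d ^ k = SR_P r (d ^ k) := by
  induction k with
  | zero => rw [pow_zero, pow_zero, SR_P_one]
  | succ k ih => rw [pow_succ, pow_succ, ih, SR_P_mul]

theorem SR_sum_pow {ι : Type} (s : Finset ι) (z : ι → Matrix D D (ZMod r))
    (hz : ∀ i j, Commute (z i) (z j)) : (∑ i ∈ s, z i) ^ r = ∑ i ∈ s, z i ^ r := by
  have : Nonempty D := ⟨1⟩
  induction s using Finset.induction_on with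
  | empty => simp [(Fact.out : r.Prime).ne_zero]
  | insert a s ha ih =>
    rw [Finset.sum_insert ha, Finset.sum_insert ha,
      add_pow_char_of_commute r (Commute.sum_right _ _ _ fun i _ => hz a i), ih]

end Alg

section AE

variable {A E : Type} [CommGroup A] [Group E] [Fintype A] [Fintype E] {r : ℕ} [Fact r.Prime]

theorem SR_comm1 (a b : A) :
    Commute (SR_P r ((a, 1) : A × E)) (SR_P r ((b, 1) : A × E)) := by
  show _ * _ = _ * _
  rw [SR_P_mul, SR_P_mul]
  congr 1
  ext <;> simp [mul_comm]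

theorem SR_comm2 (a : A) (e : E) :
    Commute (SR_P r ((a, 1) : A × E)) (SR_P r ((1, e) : A × E)) := by
  show _ * _ = _ * _
  rw [SR_P_mul, SR_P_mul]
  congr 1
  ext <;> simp

/-- the sum over `E` -/
noncomputable def SR_EE (r : ℕ) (A E : Type) [CommGroup A] [Group E] [Fintype A] [Fintype E] :
    Matrix (A × E) (A × E) (ZMod r) := ∑ e : E, SR_P r ((1, e) : A × E)

theorem SR_EE_mul : SR_EE r A E * SR_EE r A E = ((Fintype.card E : ℕ) : ZMod r) • SR_EE r A E := by
  rw [SR_EE, Finset.sum_mul]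
  have : ∀ e : E, SR_P r ((1, e) : A × E) * ∑ e' : E, SR_P r ((1, e') : A × E) =
      ∑ e' : E, SR_P r ((1, e') : A × E) := by
    intro e
    rw [Finset.mul_sum]
    have h : ∀ e' : E, SR_P r ((1, e) : A × E) * SR_P r ((1, e') : A × E) =
        SR_P r ((1, e * e') : A × E) := by
      intro e'; rw [SR_P_mul]; congr 1; ext <;> simp
    simp only [h]
    exact Equiv.sum_comp (Equiv.mulLeft e) (fun e' => SR_P r ((1, e') : A × E))
  simp only [this, Finset.sum_const, Finset.card_univ]
  rw [Nat.cast_smul_eq_nsmul]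

theorem SR_EE_pow (k : ℕ) : SR_EE r A E ^ (k + 1) =
    (((Fintype.card E : ℕ) : ZMod r)) ^ k • SR_EE r A E := by
  induction k with
  | zero => simp
  | succ k ih => rw [pow_succ, ih, smul_mul_assoc, SR_EE_mul, smul_smul, pow_succ]

theorem SR_EE_pow_r (hE : ¬ r ∣ Fintype.card E) : SR_EE r A E ^ r = SR_EE r A E := by
  have hr := (Fact.out : r.Prime)
  obtain ⟨k, hk⟩ : ∃ k, r = k + 1 := ⟨r - 1, by have := hr.pos; omega⟩
  have h1 : (((Fintype.card E : ℕ) : ZMod r)) ≠ 0 := by
    rw [Ne, ZMod.natCast_eq_zero_iff]; exact hE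
  have h2 := ZMod.pow_card_sub_one_eq_one h1
  have hk' : r - 1 = k := by omega
  rw [hk'] at h2
  have h3 := SR_EE_pow (r := r) (A := A) (E := E) k
  rw [h2, one_smul] at h3
  rw [← hk] at h3
  exact h3

/-- the `r`-th power of the convolution operator -/
theorem SR_pow (hE : ¬ r ∣ Fintype.card E) (U W : Finset A) :
    ((∑ a ∈ U, SR_P r ((a, 1) : A × E)) +
      (∑ a ∈ W, SR_P r ((a, 1) : A × E)) * (SR_EE r A E - 1)) ^ r =
    (∑ a ∈ U, SR_P r ((a ^ r, 1) : A × E)) +
      (∑ a ∈ W, SR_P r ((a ^ r, 1) : A × E)) * (SR_EE r A E - 1) := by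
  have : Nonempty (A × E) := ⟨1⟩
  have c0 : ∀ S : Finset A, Commute (∑ a ∈ S, SR_P r ((a, 1) : A × E)) (SR_EE r A E - 1) := by
    intro S
    refine Commute.sub_right (Commute.sum_left _ _ _ fun a _ => Commute.sum_right _ _ _ fun e _ => ?_)
      (Commute.one_right _)
    exact SR_comm2 a e
  have c1 : Commute (∑ a ∈ U, SR_P r ((a, 1) : A × E))
      ((∑ a ∈ W, SR_P r ((a, 1) : A × E)) * (SR_EE r A E - 1)) :=
    Commute.mul_right (Commute.sum_left _ _ _ fun a _ => Commute.sum_right _ _ _ fun b _ =>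
      SR_comm1 a b) (c0 U)
  have e1 : ∀ S : Finset A, (∑ a ∈ S, SR_P r ((a, 1) : A × E)) ^ r =
      ∑ a ∈ S, SR_P r ((a ^ r, 1) : A × E) := by
    intro S
    rw [SR_sum_pow (r := r) S (fun a => SR_P r ((a, 1) : A × E)) (fun a b => SR_comm1 a b)]
    refine Finset.sum_congr rfl fun a _ => ?_
    rw [SR_P_pow]; congr 1; ext <;> simp
  rw [add_pow_char_of_commute r c1, (c0 W).mul_pow, e1, e1,
    sub_pow_char_of_commute r (Commute.one_right _), one_pow, SR_EE_pow_r hE]

theorem SR_entry (f : A → A) (U W : Finset A) (u v : A × E) :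
    ((∑ a ∈ U, SR_P r ((f a, 1) : A × E)) +
      (∑ a ∈ W, SR_P r ((f a, 1) : A × E)) * (SR_EE r A E - 1)) u v =
    if (u⁻¹ * v).2 = 1 then (((U.filter fun b => f b = (u⁻¹ * v).1).card : ℕ) : ZMod r) else
      (((W.filter fun b => f b = (u⁻¹ * v).1).card : ℕ) : ZMod r) := by
  rcases h : u⁻¹ * v with ⟨a, e⟩
  have hP : ∀ d : A × E, SR_P r d u v = if (a, e) = d then 1 else 0 := by
    intro d; simp only [SR_P, Matrix.of_apply, h]
  have h0 : ∀ (S : Finset A), (∑ b ∈ S, SR_P r ((f b, 1) : A × E)) u v =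
      if e = 1 then (((S.filter fun b => f b = a).card : ℕ) : ZMod r) else 0 := by
    intro S
    rw [Matrix.sum_apply]
    simp only [hP, Prod.mk.injEq]
    split_ifs with h
    · simp only [h, and_true]
      rw [Finset.sum_ite, Finset.sum_const_zero, add_zero, Finset.sum_const, nsmul_eq_mul, mul_one]
      congr 2
      ext b; simp [eq_comm]
    · simp [h]
  have h1 : ∀ b : A, (SR_P r ((b, 1) : A × E) * SR_EE r A E) u v = if b = a then 1 else 0 := by
    intro b
    rw [SR_EE, Finset.mul_sum, Matrix.sum_apply]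
    have : ∀ e' : E, (SR_P r ((b, 1) : A × E) * SR_P r ((1, e') : A × E)) u v =
        if e' = e then (if b = a then 1 else 0) else 0 := by
      intro e'
      rw [SR_P_mul, hP]
      simp only [Prod.mk_mul_mk, mul_one, one_mul, Prod.mk.injEq]
      by_cases h : e' = e
      · subst h; simp [eq_comm]
      · simp [h, Ne.symm h]
    simp only [this]
    simp
  rw [Matrix.add_apply, h0 U, mul_sub, mul_one, Matrix.sub_apply, h0 W, Finset.sum_mul,
    Matrix.sum_apply]
  simp only [h1]
  rw [Finset.sum_ite, Finset.sum_const_zero, add_zero, Finset.sum_const, nsmul_eq_mul, mul_one]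
  split_ifs <;> ring

end AE

/-! ## invariant sets -/

section Inv

variable {X Ω D : Type} [Group X] [MulAction X Ω] [Group D]

/-- invariance of a subset of the regular group under the point stabiliser -/
def SR_Inv (φ : D →* X) (ω : Ω) (S : Set D) : Prop :=
  ∀ x : X, x • ω = ω → ∀ u v : D, x • (φ u • ω) = φ v • ω → u ∈ S → v ∈ S

/-- the relation of an invariant set -/
def SR_rel (φ : D →* X) (ω : Ω) (S : Set D) (α β : Ω) : Prop :=
  ∃ g : X, g • α = ω ∧ ∃ s ∈ S, g • β = φ s • ω

theorem SR_rel_iff {φ : D →* X} {ω : Ω} {S : Set D} (hS : SR_Inv φ ω S) (u v : D) :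
    SR_rel φ ω S (φ u • ω) (φ v • ω) ↔ u⁻¹ * v ∈ S := by
  constructor
  · rintro ⟨g, hg, s, hs, hgs⟩
    refine hS (g * φ u)⁻¹ ?_ s _ ?_ hs
    · rw [inv_smul_eq_iff, mul_smul, hg]
    · rw [inv_smul_eq_iff, mul_smul, ← hgs, smul_smul (φ u), ← map_mul]
      simp
  · intro h
    refine ⟨(φ u)⁻¹, by rw [inv_smul_smul], _, h, ?_⟩
    rw [map_mul, map_inv, mul_smul]

theorem SR_rel_smul {φ : D →* X} {ω : Ω} {S : Set D} (g : X) {α β : Ω} (h : SR_rel φ ω S α β) :
    SR_rel φ ω S (g • α) (g • β) := by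
  obtain ⟨k, hk, s, hs, hks⟩ := h
  refine ⟨k * g⁻¹, ?_, s, hs, ?_⟩
  · rw [mul_smul, inv_smul_smul, hk]
  · rw [mul_smul, inv_smul_smul, hks]

/-- P1 -/
theorem SR_P1 {φ : D →* X} {ω : Ω} (hreg : ∀ α β : Ω, ∃! p : D, φ p • α = β) (hprim : Prim X Ω)
    {S : Set D} (hS : SR_Inv φ ω S) (H : Subgroup D) (hSH : ∀ s ∈ S, s ∈ H) (hH : H ≠ ⊤) :
    ∀ s ∈ S, s = 1 := by
  have hinv : ∀ (g : X) (a b : Ω), (Relation.EqvGen.setoid (SR_rel φ ω S)) a b →
      (Relation.EqvGen.setoid (SR_rel φ ω S)) (g • a) (g • b) := by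
    intro g a b h
    change Relation.EqvGen _ a b at h
    change Relation.EqvGen _ (g • a) (g • b)
    induction h with
    | rel x y h => exact Relation.EqvGen.rel _ _ (SR_rel_smul g h)
    | refl x => exact Relation.EqvGen.refl _
    | symm x y _ ih => exact Relation.EqvGen.symm _ _ ih
    | trans x y z _ _ ih1 ih2 => exact Relation.EqvGen.trans _ _ _ ih1 ih2
  rcases hprim _ hinv with h | h
  · intro s hs
    have h1 : (Relation.EqvGen.setoid (SR_rel φ ω S)) ω (φ s • ω) :=
      Relation.EqvGen.rel _ _ ⟨1, one_smul _ _, s, hs, one_smul _ _⟩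
    rw [h] at h1
    have h2 : ω = φ s • ω := h1
    exact (hreg ω ω).unique h2.symm (by rw [map_one, one_smul])
  · exfalso
    apply hH
    have hq : ∀ a b : Ω, Relation.EqvGen (SR_rel φ ω S) a b →
        ∀ u v : D, φ u • ω = a → φ v • ω = b → u⁻¹ * v ∈ H := by
      intro a b hab
      induction hab with
      | rel x y h =>
        rintro u v rfl rfl
        exact hSH _ ((SR_rel_iff hS u v).1 h)
      | refl x =>
        intro u v hu hv
        have : u = v := (hreg ω x).unique hu hv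
        rw [this, inv_mul_cancel]; exact H.one_mem
      | symm x y _ ih =>
        intro u v hu hv
        have := ih v u hv hu
        have h2 := H.inv_mem this
        rwa [mul_inv_rev, inv_inv] at h2
      | trans x y z _ _ ih1 ih2 =>
        intro u v hu hv
        obtain ⟨w, hw, _⟩ := hreg ω y
        have h1 := ih1 u w hu hw
        have h2 := ih2 w v hw hv
        have h3 := H.mul_mem h1 h2
        rwa [mul_assoc, mul_inv_cancel_left] at h3
    rw [eq_top_iff]
    intro d _
    have h1 : (Relation.EqvGen.setoid (SR_rel φ ω S)) ω (φ d • ω) := by rw [h]; trivial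
    have := hq _ _ h1 1 d (by rw [map_one, one_smul]) rfl
    simpa using this

/-- P2 -/
theorem SR_P2 {φ : D →* X} {ω : Ω} (hreg : ∀ α β : Ω, ∃! p : D, φ p • α = β) (hprim : Prim X Ω)
    {S : Set D} (hS : SR_Inv φ ω S) (hne : S.Nonempty) (h1 : (1 : D) ∉ S) (ρ : D)
    (hρ : ∀ s : D, ρ⁻¹ * s ∈ S ↔ s ∈ S) : ρ = 1 := by
  let r : Setoid Ω :=
    { r := fun α β => ∀ γ, SR_rel φ ω S α γ ↔ SR_rel φ ω S β γ
      iseqv := ⟨fun _ _ => Iff.rfl, fun h γ => (h γ).symm, fun h h' γ => (h γ).trans (h' γ)⟩ }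
  have hr : ∀ (g : X) (a b : Ω), r a b → r (g • a) (g • b) := by
    intro g a b hab γ
    have e : ∀ c : Ω, SR_rel φ ω S (g • c) γ ↔ SR_rel φ ω S c (g⁻¹ • γ) := by
      intro c
      constructor
      · intro h
        have := SR_rel_smul g⁻¹ h
        rwa [inv_smul_smul] at this
      · intro h
        have := SR_rel_smul g h
        rwa [smul_inv_smul] at this
    rw [e, e]
    exact hab _
  have hω : ∀ v : D, SR_rel φ ω S ω (φ v • ω) ↔ v ∈ S := by
    intro v
    have := SR_rel_iff hS 1 v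
    rwa [map_one, one_smul, inv_one, one_mul] at this
  rcases hprim r hr with h | h
  · have h2 : r ω (φ ρ • ω) := by
      intro γ
      obtain ⟨v, hv, _⟩ := hreg ω γ
      rw [← hv, hω, SR_rel_iff hS, hρ]
    rw [h] at h2
    have h3 : ω = φ ρ • ω := h2
    exact (hreg ω ω).unique h3.symm (by rw [map_one, one_smul])
  · exfalso
    obtain ⟨s, hs⟩ := hne
    have h2 : r ω (φ s • ω) := by rw [h]; trivial
    have h3 := (h2 (φ s • ω)).1 ((hω s).2 hs)
    rw [SR_rel_iff hS, inv_mul_cancel] at h3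
    exact h1 h3

/-! ## matrices invariant under the group -/

variable [Fintype D]

/-- the regular group as set of points -/
noncomputable def SR_e {φ : D →* X} (hreg : ∀ α β : Ω, ∃! p : D, φ p • α = β) (ω : Ω) : D ≃ Ω :=
  Equiv.ofBijective (fun d => φ d • ω)
    ⟨fun a b h => (hreg ω (φ b • ω)).unique h rfl, fun β => ⟨_, (hreg ω β).choose_spec.1⟩⟩

/-- the action on the regular group -/
noncomputable def SR_pi {φ : D →* X} (hreg : ∀ α β : Ω, ∃! p : D, φ p • α = β) (ω : Ω) (x : X) :
    D ≃ D := ((SR_e hreg ω).trans (MulAction.toPerm x)).trans (SR_e hreg ω).symm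

theorem SR_pi_spec {φ : D →* X} (hreg : ∀ α β : Ω, ∃! p : D, φ p • α = β) (ω : Ω) (x : X) (d : D) :
    φ (SR_pi hreg ω x d) • ω = x • (φ d • ω) := by
  have : SR_e hreg ω (SR_pi hreg ω x d) = x • (SR_e hreg ω d) := by
    simp [SR_pi]
  exact this

theorem SR_pi_eq {φ : D →* X} (hreg : ∀ α β : Ω, ∃! p : D, φ p • α = β) (ω : Ω) (x : X) (u v : D)
    (h : x • (φ u • ω) = φ v • ω) : SR_pi hreg ω x u = v :=
  (hreg ω (φ v • ω)).unique (by rw [SR_pi_spec, h]) rfl

/-- the convolution operator of a set -/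
noncomputable def SR_M (r : ℕ) (S : Set D) : Matrix D D (ZMod r) :=
  Matrix.of fun u v => if u⁻¹ * v ∈ S then 1 else 0

theorem SR_M_inv {φ : D →* X} (hreg : ∀ α β : Ω, ∃! p : D, φ p • α = β) {ω : Ω} {S : Set D}
    (hS : SR_Inv φ ω S) (r : ℕ) (x : X) (u v : D) :
    SR_M r S (SR_pi hreg ω x u) (SR_pi hreg ω x v) = SR_M r S u v := by
  simp only [SR_M, Matrix.of_apply]
  congr 1
  rw [eq_iff_iff, ← SR_rel_iff hS, ← SR_rel_iff hS, SR_pi_spec, SR_pi_spec]
  constructor
  · intro h
    have := SR_rel_smul x⁻¹ h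
    rwa [inv_smul_smul, inv_smul_smul] at this
  · exact SR_rel_smul x

theorem SR_pow_inv {φ : D →* X} (hreg : ∀ α β : Ω, ∃! p : D, φ p • α = β) {ω : Ω} {S : Set D}
    [DecidableEq D] (hS : SR_Inv φ ω S) (r k : ℕ) (x : X) (u v : D) :
    (SR_M r S ^ k) (SR_pi hreg ω x u) (SR_pi hreg ω x v) = (SR_M r S ^ k) u v := by
  induction k generalizing u v with
  | zero => simp [Matrix.one_apply]
  | succ k ih =>
    rw [pow_succ, Matrix.mul_apply, Matrix.mul_apply,
      ← Equiv.sum_comp (SR_pi hreg ω x)]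
    refine Finset.sum_congr rfl fun w _ => ?_
    rw [ih, SR_M_inv hreg hS]

theorem SR_supp_inv {φ : D →* X} (hreg : ∀ α β : Ω, ∃! p : D, φ p • α = β) {ω : Ω} {S : Set D}
    [DecidableEq D] (hS : SR_Inv φ ω S) (r k : ℕ) :
    SR_Inv φ ω {d : D | (SR_M r S ^ k) 1 d ≠ 0} := by
  intro x hx u v huv hu
  have h1 : SR_pi hreg ω x 1 = 1 := SR_pi_eq hreg ω x 1 1 (by rw [map_one, one_smul, hx])
  have h2 : SR_pi hreg ω x u = v := SR_pi_eq hreg ω x u v huv
  have h3 := SR_pow_inv hreg hS r k x 1 u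
  rw [h1, h2] at h3
  show (SR_M r S ^ k) 1 v ≠ 0
  rw [h3]; exact hu

end Inv

/-! ## the main argument -/

section Main

variable {X Ω A E : Type} [Group X] [MulAction X Ω] [CommGroup A] [Group E] [Fintype A] [Fintype E]
  {r : ℕ}

theorem SR_card_fibre (hA : Nat.card {a : A // a ^ r = 1} = r) (a : A) :
    (Finset.univ.filter fun b : A => b ^ r = a ^ r).card = r := by
  refine Eq.trans ?_ hA
  rw [Nat.card_eq_fintype_card, ← Fintype.card_subtype]
  refine Fintype.card_congr
    { toFun := fun b => ⟨b.1 * a⁻¹, by rw [mul_pow, b.2, ← mul_pow, mul_inv_cancel, one_pow]⟩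
      invFun := fun c => ⟨c.1 * a, by rw [mul_pow, c.2, one_mul]⟩
      left_inv := fun b => by simp
      right_inv := fun c => by simp }

theorem SR_key {φ : A × E →* X} {ω : Ω} [hr : Fact r.Prime]
    (hreg : ∀ α β : Ω, ∃! p : A × E, φ p • α = β) (hprim : Prim X Ω)
    (hA : Nat.card {a : A // a ^ r = 1} = r) (hE : ¬ r ∣ Fintype.card E)
    (hcond : ∀ (a : A) (e₁ e₂ : E), e₁ ≠ 1 → e₂ ≠ 1 →
      ∃ x : X, x • ω = ω ∧ x • (φ (a, e₁) • ω) = φ (a, e₂) • ω)
    {S : Set (A × E)} (hS : SR_Inv φ ω S) (a : A) (e : E) (hae : (a, e) ∈ S)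
    (hne : ¬ (a ^ r = 1 ∧ e = 1)) (ρ : A) (hρ : ρ ^ r = 1) : (a * ρ, e) ∈ S := by
  let U : Finset A := Finset.univ.filter fun b => (b, (1 : E)) ∈ S
  let W : Finset A := Finset.univ.filter fun b => ∃ e : E, e ≠ 1 ∧ (b, e) ∈ S
  have hW : ∀ (b : A) (e : E), e ≠ 1 → (b ∈ W ↔ (b, e) ∈ S) := by
    intro b e he
    simp only [W, Finset.mem_filter, Finset.mem_univ, true_and]
    constructor
    · rintro ⟨e', he', h⟩
      obtain ⟨x, hx, hx'⟩ := hcond b e' e he' he
      exact hS x hx _ _ hx' h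
    · intro h; exact ⟨e, he, h⟩
  have hM : SR_M r S = (∑ a ∈ U, SR_P r ((a, 1) : A × E)) +
      (∑ a ∈ W, SR_P r ((a, 1) : A × E)) * (SR_EE r A E - 1) := by
    ext u v
    have h1 := SR_entry (r := r) (fun b : A => b) U W u v
    rw [h1]
    rcases h : u⁻¹ * v with ⟨a, e⟩
    simp only [SR_M, Matrix.of_apply, h]
    have hf : ∀ (V : Finset A), (((V.filter fun b => b = a).card : ℕ) : ZMod r) =
        if a ∈ V then 1 else 0 := by
      intro V
      by_cases haV : a ∈ V
      · have : (V.filter fun b => b = a) = {a} := by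
          ext b; simp only [Finset.mem_filter, Finset.mem_singleton]
          constructor
          · exact fun h => h.2
          · rintro rfl; exact ⟨haV, rfl⟩
        rw [this, if_pos haV]; simp
      · have : (V.filter fun b => b = a) = ∅ := by
          ext b; simp only [Finset.mem_filter, Finset.notMem_empty, iff_false]
          rintro ⟨h', hb⟩; exact haV (hb ▸ h')
        rw [this, if_neg haV]; simp
    rw [hf, hf]
    by_cases he : e = 1
    · subst he
      simp [U]
    · rw [if_neg he]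
      congr 1
      rw [eq_iff_iff, hW a e he]
  have hpow : ∀ (b : A) (f : E), (SR_M r S ^ r) 1 (b, f) =
      if f = 1 then (((U.filter fun c => c ^ r = b).card : ℕ) : ZMod r) else
      (((W.filter fun c => c ^ r = b).card : ℕ) : ZMod r) := by
    intro b f
    rw [hM, SR_pow hE, SR_entry (r := r) (fun b : A => b ^ r) U W 1 (b, f), inv_one, one_mul]
  -- the support is in a proper subgroup
  have hH : ((powMonoidHom r : A →* A).range.prod (⊤ : Subgroup E)) ≠ ⊤ := by
    intro h
    have hsurj : Function.Surjective (fun a : A => a ^ r) := by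
      intro b
      have : ((b, 1) : A × E) ∈ ((powMonoidHom r : A →* A).range.prod (⊤ : Subgroup E)) := by
        rw [h]; trivial
      obtain ⟨⟨c, hc⟩, _⟩ := Subgroup.mem_prod.1 this
      exact ⟨c, hc⟩
    have hinj : Function.Injective (fun a : A => a ^ r) :=
      Finite.injective_iff_surjective.2 hsurj
    have : Nat.card {a : A // a ^ r = 1} = 1 := by
      rw [Nat.card_eq_one_iff_unique]
      refine ⟨⟨fun b c => ?_⟩, ⟨⟨1, one_pow r⟩⟩⟩
      have : (b : A) ^ r = (c : A) ^ r := by rw [b.2, c.2]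
      exact Subtype.ext (hinj this)
    rw [hA] at this
    exact hr.out.one_lt.ne' this
  have hzero : ∀ d : A × E, d ≠ 1 → (SR_M r S ^ r) 1 d = 0 := by
    intro d hd
    by_contra hcon
    refine hd (SR_P1 hreg hprim (SR_supp_inv hreg hS r r) _ ?_ hH d hcon)
    rintro ⟨b, f⟩ hbf
    change (SR_M r S ^ r) 1 (b, f) ≠ 0 at hbf
    rw [hpow] at hbf
    refine Subgroup.mem_prod.2 ⟨?_, trivial⟩
    by_contra hb
    have hno : ∀ c : A, c ^ r ≠ b := fun c hc => hb ⟨c, hc⟩
    apply hbf
    split_ifs <;> simp [hno]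
  -- conclusion
  have hfull : ∀ V : Finset A, a ∈ V → (((V.filter fun c => c ^ r = a ^ r).card : ℕ) : ZMod r) = 0 →
      a * ρ ∈ V := by
    intro V haV h0
    have h1 : r ∣ (V.filter fun c => c ^ r = a ^ r).card := (ZMod.natCast_eq_zero_iff _ _).1 h0
    have h2 : 0 < (V.filter fun c => c ^ r = a ^ r).card :=
      Finset.card_pos.2 ⟨a, Finset.mem_filter.2 ⟨haV, rfl⟩⟩
    have h3 := Nat.le_of_dvd h2 h1
    have h4 : (V.filter fun c => c ^ r = a ^ r) = Finset.univ.filter fun c : A => c ^ r = a ^ r :=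
      Finset.eq_of_subset_of_card_le (Finset.filter_subset_filter _ (Finset.subset_univ _))
        (by rw [SR_card_fibre hA]; exact h3)
    have h5 : a * ρ ∈ Finset.univ.filter fun c : A => c ^ r = a ^ r := by
      rw [Finset.mem_filter]; exact ⟨Finset.mem_univ _, by rw [mul_pow, hρ, mul_one]⟩
    rw [← h4] at h5
    exact (Finset.mem_filter.1 h5).1
  by_cases he : e = 1
  · subst he
    have har : a ^ r ≠ 1 := fun h => hne ⟨h, rfl⟩
    have h1 := hpow (a ^ r) 1
    rw [if_pos rfl, hzero _ (by intro h; exact har (congrArg Prod.fst h))] at h1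
    have := hfull U (by simp [U, hae]) h1.symm
    simpa [U] using this
  · have h1 := hpow (a ^ r) e
    rw [if_neg he, hzero _ (by intro h; exact he (congrArg Prod.snd h))] at h1
    have := hfull W ((hW a e he).2 hae) h1.symm
    exact (hW _ e he).1 this

theorem SR_P3 {φ : A × E →* X} {ω : Ω} [hr : Fact r.Prime]
    (hreg : ∀ α β : Ω, ∃! p : A × E, φ p • α = β) (hprim : Prim X Ω)
    (hA : Nat.card {a : A // a ^ r = 1} = r) (hE : ¬ r ∣ Fintype.card E)
    (hcond : ∀ (a : A) (e₁ e₂ : E), e₁ ≠ 1 → e₂ ≠ 1 →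
      ∃ x : X, x • ω = ω ∧ x • (φ (a, e₁) • ω) = φ (a, e₂) • ω)
    {S : Set (A × E)} (hS : SR_Inv φ ω S) (hne : S.Nonempty) (h1 : (1 : A × E) ∉ S) :
    ∃ ρ : A, ρ ^ r = 1 ∧ ((ρ, 1) : A × E) ∈ S := by
  by_contra hcon
  have hnot : ∀ ρ : A, ρ ^ r = 1 → ((ρ, 1) : A × E) ∉ S := fun ρ h h' => hcon ⟨ρ, h, h'⟩
  obtain ⟨ρ, hρ, hρ1⟩ : ∃ ρ : A, ρ ^ r = 1 ∧ ρ ≠ 1 := by
    by_contra hc
    have : Nat.card {a : A // a ^ r = 1} = 1 := by
      rw [Nat.card_eq_one_iff_unique]
      refine ⟨⟨fun b c => ?_⟩, ⟨⟨1, one_pow r⟩⟩⟩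
      have hb : (b : A) = 1 := by by_contra h; exact hc ⟨b, b.2, h⟩
      have hc' : (c : A) = 1 := by by_contra h; exact hc ⟨c, c.2, h⟩
      exact Subtype.ext (hb.trans hc'.symm)
    rw [hA] at this
    exact hr.out.one_lt.ne' this
  have hst : ∀ σ : A, σ ^ r = 1 → ∀ s : A × E, s ∈ S → ((σ, 1) : A × E) * s ∈ S := by
    rintro σ hσ ⟨a, e⟩ has
    have := SR_key hreg hprim hA hE hcond hS a e has
      (by rintro ⟨h, rfl⟩; exact hnot a h has) σ hσ
    rw [mul_comm] at this
    rwa [Prod.mk_mul_mk, one_mul]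
  have := SR_P2 hreg hprim hS hne h1 ((ρ, 1) : A × E) (fun s => ⟨fun h => ?_, fun h => ?_⟩)
  · exact hρ1 (congrArg Prod.fst this)
  · have := hst ρ hρ _ h
    rwa [mul_inv_cancel_left] at this
  · have := hst ρ⁻¹ (by rw [inv_pow, hρ, inv_one]) _ h
    rwa [show ((ρ⁻¹, 1) : A × E) = ((ρ, 1) : A × E)⁻¹ by rw [Prod.inv_mk, inv_one]] at this

theorem SR_main [Fintype Ω] {φ : A × E →* X} {ω : Ω} [hr : Fact r.Prime]
    (htr : MulAction.IsPretransitive X Ω)
    (hreg : ∀ α β : Ω, ∃! p : A × E, φ p • α = β) (hprim : Prim X Ω)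
    (hA : Nat.card {a : A // a ^ r = 1} = r) (hE : ¬ r ∣ Fintype.card E)
    (hn : r < Fintype.card Ω)
    (hcond : ∀ (a : A) (e₁ e₂ : E), e₁ ≠ 1 → e₂ ≠ 1 →
      ∃ x : X, x • ω = ω ∧ x • (φ (a, e₁) • ω) = φ (a, e₂) • ω) : TwoTrans X Ω := by
  have hcard : Fintype.card (A × E) = Fintype.card Ω := Fintype.card_congr (SR_e hreg ω)
  let R : Finset (A × E) := Finset.univ.filter fun d => d.1 ^ r = 1 ∧ d.2 = 1
  have hR : R.card = r := by
    refine Eq.trans ?_ hA
    rw [Nat.card_eq_fintype_card, ← Fintype.card_subtype]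
    refine Fintype.card_congr
      { toFun := fun b => ⟨b.1.1, b.2.1⟩
        invFun := fun c => ⟨(c.1, 1), c.2, rfl⟩
        left_inv := fun b => by
          rcases b with ⟨⟨a, e⟩, h1, h2⟩
          simp only at h2
          subst h2; rfl
        right_inv := fun c => rfl }
  let B : Ω → Ω → Prop := fun γ β => ∃ x : X, x • γ = γ ∧ x • ω = β
  have hB : ∀ β : Ω, β ≠ ω → Fintype.card Ω - r ≤
      ((Finset.univ.erase ω).filter fun γ => B γ β).card := by
    intro β hβ
    -- the orbit of `β` meets `R`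
    let S : Set (A × E) := {u | ∃ x : X, x • ω = ω ∧ x • β = φ u • ω}
    have hS : SR_Inv φ ω S := by
      rintro x hx u v huv ⟨y, hy, hyu⟩
      exact ⟨x * y, by rw [mul_smul, hy, hx], by rw [mul_smul, hyu, huv]⟩
    obtain ⟨b, hb, _⟩ := hreg ω β
    have hne : S.Nonempty := ⟨b, 1, one_smul _ _, by rw [one_smul, hb]⟩
    have h1 : (1 : A × E) ∉ S := by
      rintro ⟨x, hx, hxβ⟩
      rw [map_one, one_smul] at hxβ
      apply hβ
      rw [← hx] at hxβ
      exact smul_left_cancel x hxβ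
    obtain ⟨ρ, hρ, x, hx, hxβ⟩ := SR_P3 hreg hprim hA hE hcond hS hne h1
    have hmem : ∀ w : A × E, w ∉ R → ∃ z : X, z • (φ w • ω) = φ w • ω ∧ z • ω = φ (ρ, 1) • ω := by
      intro w hw
      let T : Set (A × E) := {u | ∃ x : X, x • ω = ω ∧ x • (φ w⁻¹ • ω) = φ u • ω}
      have hT : SR_Inv φ ω T := by
        rintro x hx u v huv ⟨y, hy, hyu⟩
        exact ⟨x * y, by rw [mul_smul, hy, hx], by rw [mul_smul, hyu, huv]⟩
      have hwT : (w.1⁻¹, w.2⁻¹) ∈ T := ⟨1, one_smul _ _, by rw [one_smul]; rfl⟩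
      obtain ⟨y, hy, hyw⟩ := SR_key hreg hprim hA hE hcond hT _ _ hwT (by
        rintro ⟨h2, h3⟩
        apply hw
        simp only [R, Finset.mem_filter, Finset.mem_univ, true_and]
        exact ⟨by rwa [inv_pow, inv_eq_one] at h2, by rwa [inv_eq_one] at h3⟩) ρ hρ
      refine ⟨φ w * y * (φ w)⁻¹, ?_, ?_⟩
      · rw [mul_smul, mul_smul, inv_smul_smul, hy]
      · rw [mul_smul, mul_smul, ← map_inv, hyw, smul_smul, ← map_mul]
        congr 2
        ext
        · simp
        · simp
    rw [← hcard, ← hR, ← Finset.card_univ, ← Finset.card_sdiff_of_subset (Finset.subset_univ R)]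
    refine Finset.card_le_card_of_injOn (fun w => x⁻¹ • (φ w • ω)) ?_ ?_
    · intro w hw
      have hw' : w ∉ R := by
        have := (Finset.mem_sdiff.1 (Finset.mem_coe.1 hw)).2; exact this
      obtain ⟨z, hz1, hz2⟩ := hmem w hw'
      simp only [Finset.coe_filter, Finset.mem_erase, Finset.mem_univ, and_true, Set.mem_setOf_eq]
      refine ⟨?_, x⁻¹ * z * x, ?_, ?_⟩
      · intro h
        rw [inv_smul_eq_iff, hx] at h
        apply hw'
        have : w = 1 := (hreg ω ω).unique h (by rw [map_one, one_smul])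
        rw [this]
        simp [R]
      · rw [mul_smul, mul_smul, smul_inv_smul, hz1]
      · rw [mul_smul, mul_smul, hx, hz2, ← hxβ, inv_smul_smul]
    · intro w _ w' _ h
      have h2 := smul_left_cancel _ h
      exact (hreg ω _).unique h2 rfl
  -- averaging
  obtain ⟨γ, hγ, hγB⟩ : ∃ γ ∈ (Finset.univ.erase ω : Finset Ω),
      Fintype.card Ω - r ≤ ((Finset.univ.erase ω).filter fun β => B γ β).card := by
    refine Finset.exists_le_of_sum_le ?_ ?_
    · rw [← Finset.card_pos, Finset.card_erase_of_mem (Finset.mem_univ _), Finset.card_univ]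
      have := hr.out.two_le; omega
    · have h1 := Finset.sum_card_bipartiteAbove_eq_sum_card_bipartiteBelow
        (s := (Finset.univ.erase ω : Finset Ω)) (t := (Finset.univ.erase ω : Finset Ω))
        (fun γ β => B γ β)
      have h2 : ∑ β ∈ (Finset.univ.erase ω : Finset Ω), (Fintype.card Ω - r) ≤
          ∑ β ∈ (Finset.univ.erase ω : Finset Ω),
            ((Finset.univ.erase ω).filter fun γ => B γ β).card :=
        Finset.sum_le_sum fun β hβ => hB β (Finset.ne_of_mem_erase hβ)
      refine h2.trans (le_of_eq ?_)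
      exact h1.symm
  have hγω : γ ≠ ω := Finset.ne_of_mem_erase hγ
  have hkey : ∀ β : Ω, β ≠ γ → B γ β := by
    intro β hβ
    by_contra hcon
    obtain ⟨g, hg⟩ := htr.exists_smul_eq γ ω
    let S : Set (A × E) := {u | ∃ x : X, x • ω = ω ∧ x • (g • β) = φ u • ω}
    have hS : SR_Inv φ ω S := by
      rintro x hx u v huv ⟨y, hy, hyu⟩
      exact ⟨x * y, by rw [mul_smul, hy, hx], by rw [mul_smul, hyu, huv]⟩
    obtain ⟨b, hb, _⟩ := hreg ω (g • β)
    have hne : S.Nonempty := ⟨b, 1, one_smul _ _, by rw [one_smul, hb]⟩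
    have h1 : (1 : A × E) ∉ S := by
      rintro ⟨x, hx, hxβ⟩
      rw [map_one, one_smul] at hxβ
      apply hβ
      have h2 : x • (g • β) = x • (g • γ) := by
        rw [hxβ, hg, hx]
      exact smul_left_cancel g (smul_left_cancel x h2)
    -- no element of `S` is moved into `g B`
    have hdis : ∀ u ∈ S, ∀ β' : Ω, B γ β' → φ u • ω ≠ g • β' := by
      rintro u ⟨x, hx, hxu⟩ β' ⟨z, hz, hzω⟩ h
      apply hcon
      refine ⟨(g⁻¹ * x * g)⁻¹ * z, ?_, ?_⟩
      · rw [mul_smul, hz, inv_smul_eq_iff, mul_smul, mul_smul, hg, hx, ← hg, inv_smul_smul]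
      · rw [mul_smul, hzω, inv_smul_eq_iff, mul_smul, mul_smul, hxu, h, inv_smul_smul]
    -- counting
    let SF : Finset (A × E) := Finset.univ.filter fun u => u ∈ S
    have hcnt : SF.card + (((Finset.univ.erase ω).filter fun β => B γ β).card + 1) + 1 ≤
        Fintype.card Ω := by
      have hωB : B γ ω := ⟨1, one_smul _ _, one_smul _ _⟩
      let BF : Finset Ω := Finset.univ.filter fun β => B γ β
      have hBF : BF.card = ((Finset.univ.erase ω).filter fun β => B γ β).card + 1 := by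
        have : BF = insert ω ((Finset.univ.erase ω).filter fun β => B γ β) := by
          ext β'
          simp only [BF, Finset.mem_filter, Finset.mem_univ, true_and, Finset.mem_insert,
            Finset.mem_erase, and_true]
          constructor
          · intro h
            by_cases h' : β' = ω
            · exact Or.inl h'
            · exact Or.inr ⟨h', h⟩
          · rintro (rfl | h)
            · exact hωB
            · exact h.2
        rw [this, Finset.card_insert_of_notMem]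
        simp
      rw [← hBF]
      have e1 : (SF.image fun u => φ u • ω).card = SF.card :=
        Finset.card_image_of_injective _ fun u v h => (hreg ω _).unique h rfl
      have e2 : (BF.image fun β => g • β).card = BF.card :=
        Finset.card_image_of_injective _ (MulAction.injective g)
      have d1 : Disjoint (SF.image fun u => φ u • ω) (BF.image fun β => g • β) := by
        rw [Finset.disjoint_left]
        intro a ha hb
        obtain ⟨u, hu, rfl⟩ := Finset.mem_image.1 ha
        obtain ⟨β', hβ', hβ''⟩ := Finset.mem_image.1 hb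
        exact hdis u (Finset.mem_filter.1 hu).2 β' (Finset.mem_filter.1 hβ').2 hβ''.symm
      have d2 : ω ∉ (SF.image fun u => φ u • ω) ∪ (BF.image fun β => g • β) := by
        intro h
        rcases Finset.mem_union.1 h with h | h
        · obtain ⟨u, hu, hu'⟩ := Finset.mem_image.1 h
          have : u = 1 := (hreg ω ω).unique hu' (by rw [map_one, one_smul])
          rw [this] at hu
          exact h1 (Finset.mem_filter.1 hu).2
        · obtain ⟨β', hβ', hβ''⟩ := Finset.mem_image.1 h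
          obtain ⟨z, hz, hzω⟩ := (Finset.mem_filter.1 hβ').2
          rw [← hg] at hβ''
          have h3 : β' = γ := smul_left_cancel g hβ''
          rw [h3, ← hz] at hzω
          exact hγω (smul_left_cancel z hzω).symm
      have := Finset.card_le_univ (insert ω ((SF.image fun u => φ u • ω) ∪ (BF.image fun β => g • β)))
      rw [Finset.card_insert_of_notMem d2, Finset.card_union_of_disjoint d1, e1, e2] at this
      exact this
    have hSF : SF.card < r := by omega
    have hSR : ∀ u ∈ S, u ∈ (powMonoidHom r : A →* A).ker.prod (⊥ : Subgroup E) := by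
      rintro ⟨a, e⟩ hu
      by_contra hno
      have hno' : ¬ (a ^ r = 1 ∧ e = 1) := by
        rintro ⟨h2, h3⟩
        exact hno (Subgroup.mem_prod.2 ⟨h2, h3⟩)
      have : r ≤ SF.card := by
        conv_lhs => rw [← hR]
        refine Finset.card_le_card_of_injOn (fun ρ => (a, e) * ρ) ?_ ?_
        · rintro ⟨ρ, f⟩ hρ
          have hρ' := (Finset.mem_filter.1 (Finset.mem_coe.1 hρ)).2
          simp only at hρ'
          obtain ⟨h4, rfl⟩ := hρ'
          have := SR_key hreg hprim hA hE hcond hS a e hu hno' ρ h4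
          simp only [SF, Finset.coe_filter, Finset.mem_univ, true_and, Set.mem_setOf_eq,
            Prod.mk_mul_mk, mul_one]
          exact this
        · intro u _ v _ h
          exact mul_left_cancel h
      omega
    have hHne : (powMonoidHom r : A →* A).ker.prod (⊥ : Subgroup E) ≠ ⊤ := by
      intro h
      have : R = Finset.univ := by
        ext d
        simp only [Finset.mem_univ, iff_true]
        have hd : d ∈ (powMonoidHom r : A →* A).ker.prod (⊥ : Subgroup E) := by rw [h]; trivial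
        obtain ⟨h2, h3⟩ := Subgroup.mem_prod.1 hd
        exact Finset.mem_filter.2 ⟨Finset.mem_univ _, h2, h3⟩
      rw [this, Finset.card_univ, hcard] at hR
      omega
    obtain ⟨u, hu⟩ := hne
    have := SR_P1 hreg hprim hS _ hSR hHne u hu
    rw [this] at hu
    exact h1 hu
  intro a b c d hab hcd
  obtain ⟨g₁, hg₁⟩ := htr.exists_smul_eq a γ
  obtain ⟨g₂, hg₂⟩ := htr.exists_smul_eq c γ
  obtain ⟨x₁, hx₁, hx₁'⟩ := hkey (g₁ • b) (by
    intro h; rw [← hg₁] at h; exact hab (smul_left_cancel _ h).symm)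
  obtain ⟨x₂, hx₂, hx₂'⟩ := hkey (g₂ • d) (by
    intro h; rw [← hg₂] at h; exact hcd (smul_left_cancel _ h).symm)
  refine ⟨g₂⁻¹ * x₂ * x₁⁻¹ * g₁, ?_, ?_⟩
  · rw [mul_smul, mul_smul, mul_smul, hg₁, inv_smul_eq_iff.2 hx₁.symm, hx₂, inv_smul_eq_iff, hg₂]
  · rw [mul_smul, mul_smul, mul_smul, ← hx₁', inv_smul_smul, hx₂', inv_smul_smul]

end Main

theorem SR : SR_stmt := by
  intro X Ω _ _ _ _ A E ω r htr hprim hAc hAE hreg hr hA hE hn hcond
  have := Fintype.ofFinite Ω
  have := Fintype.ofFinite A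
  have := Fintype.ofFinite E
  have : Fact r.Prime := ⟨hr⟩
  letI : CommGroup A := { (inferInstance : Group A) with
    mul_comm := fun a b => Subtype.ext (hAc a a.2 b b.2) }
  let φ : A × E →* X := MonoidHom.mk' (fun p => (p.1 : X) * (p.2 : X)) (by
    rintro ⟨a, e⟩ ⟨b, f⟩
    show ((a * b : A) : X) * ((e * f : E) : X) = ((a : X) * (e : X)) * ((b : X) * (f : X))
    have h1 : (b : X) * (e : X) = (e : X) * (b : X) := hAE b b.2 e e.2
    rw [show ((a * b : A) : X) = (a : X) * (b : X) from rfl,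
      show ((e * f : E) : X) = (e : X) * (f : X) from rfl]
    rw [mul_assoc, ← mul_assoc (b : X), h1]; simp only [mul_assoc])
  refine SR_main (φ := φ) (ω := ω) (r := r) htr hreg hprim ?_ ?_ ?_ ?_
  · refine Eq.trans ?_ hA
    refine Nat.card_congr
      { toFun := fun a => ⟨a.1.1, a.1.2, by
          have := congrArg (fun t : A => (t : X)) a.2; simpa using this⟩
        invFun := fun a => ⟨⟨a.1, a.2.1⟩, Subtype.ext (by simpa using a.2.2)⟩
        left_inv := fun a => rfl
        right_inv := fun a => rfl }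
  · rwa [← Nat.card_eq_fintype_card]
  · rwa [← Nat.card_eq_fintype_card]
  · intro a e₁ e₂ h1 h2
    exact hcond a a.2 e₁ e₁.2 e₂ e₂.2 (fun h => h1 (Subtype.ext h)) (fun h => h2 (Subtype.ext h))

end Pool.Agent.helper53.AU
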