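import Pool.Agent.helper14.AU.Defs
import Pool.Agent.helper98.Tsei.M2

/-!
# Project au: (MP_d58e27_lc, area universality, `∀∃ℝ`-completeness)

TARGET. `theorem main : IsCompleteFor AER TAU`: area universality for triples, with no area fixed in
the input, is complete for `∀∃ℝ`.

PROOF. (1) GADGETS (CG, SG). A collinearity gadget `Col(p,q;r)` (for points `p ≠ q`): fresh points
`f0, .., f4`, triples `pqf0, pqf1, rf0f2, rf1f2, f0f1f3, rf2f4`. If their areas are `0,0,0,0,+,+` then `r`
is on the line `pq`; and if `r` is on the line `pq` then ALL values of the six areas are realizable.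
`Neq(p,q)`: `pqf0`. `NC(p;q,r)` (`p,q,r` not collinear): `pqf0, prf1, pf0f1`. `Meas(p,q,r)`: `pqf0, qrf0`.
(2) TS: a system of items (gadgets on named points) gives a list of triples.
(3) PS, PC: an item system for a quadratic system `Q` (`y0 y1 + y2 = y3`, `QSys`), von Staudt with the base
points `O, A, B, I`: the number `x` is `N = (0:x:1)`, `X = (x:0:1)`, `S = (1:x:0)`, and `x y + z = t` iff
`(1:x:0), (0:z:1), (y:t:1)` are collinear. Measured variables `x`: `Meas(X_0, X, X_1)` with areas `α, β` says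
`|x| κ β = |1 - x| α` with a common unknown `κ > 0`.
(4) E1, FS, FC: the Tseitin system of a formula (project of SGE2); a universal variable is
`x = q - 1/q`, `q = (a/b)^2`, `a = t(1-t')`, `b = t'(1-t)` with measured `t, t'`.
(5) PT: polynomial time. MEM: `TAU ∈ AER`.

RULES. File `Pool/Agent/<seat>/AU/XX.lean` with `import Pool.Agent.helper14.AU.Spec`, `namespace
Pool.Agent.helper14.AU`, `theorem XX (h : YY_stmt) .. : XX_stmt`, auxiliary lemmas prefixed `XX_`, no
sorry, no double quotes. Polynomial time: the calculus `Cp` (functions), `Cq` (predicates), `Dp`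
(words), `Pool/Agent/H54/PT/Ops.lean`, `Cp.lean`, `Dp.lean`; look at `Pool/Agent/helper98/Tsei/M2.lean`
and `Pool/Agent/helper39/SGE/M10.lean` for examples.
-/

set_option autoImplicit false

namespace Pool.Agent.helper14.AU

open N68a2faeb N793a5b8e Pool.Agent.helper56.SGE Pool.Agent.helper56.SGE.QSys
  Pool.Agent.helper98.Tsei Pool.Agent.H54.PT

abbrev Pt := ℝ × ℝ

/-- Twice the signed area. -/
def dt (a b c : Pt) : ℝ := (b.1 - a.1) * (c.2 - a.2) - (c.1 - a.1) * (b.2 - a.2)

/-! ## 1. Gadgets -/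

/-- The gadgets can be completed. Proof. Let `u = q - p ≠ 0`, `n = (-u.2, u.1)`, `s = |u|²`.
(Col) write points as `r + x u + y n`; as `r` is on the line `pq`, `dt p q (r + x u + y n) = y s` and
`dt r (r + x u + y n) (r + x' u + y' n) = (x y' - x' y) s`. With `A = 2 a1 / s`, `A' = 2 a2 / s`, `B = 2 b1 / s`,
`B' = 2 b2 / s`: if not all are zero take `f = (B, A)`, `g = (-B', -A')`, `h = (0, 1)` (coordinates
`(x, y)`), so `f ≠ g`; if all are zero take `f = (0,0)`, `g = (1,0)`, `h = (1,0)`. Then `o, o'` by (Neq) for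
`f ≠ g` and `r ≠ h`. (Neq) `o = p + (2 e / s) n`. (NC) let `u = q - p`, `v = r - p`, `D = dt p q r ≠ 0`:
`s1 = p + u + (2 b1 / D) v`, `s2 = p + (2 b2 / D) u + y v`, `y = (2 e + 4 b1 b2 / D) / D`. -/
def CG_stmt : Prop :=
  (∀ p q r : Pt, p ≠ q → dt p q r = 0 → ∀ a1 a2 b1 b2 e1 e2 : ℝ, 0 ≤ a1 → 0 ≤ a2 → 0 ≤ b1 →
    0 ≤ b2 → 0 ≤ e1 → 0 ≤ e2 → ∃ f g h o o' : Pt, area p q f = a1 ∧ area p q g = a2 ∧
      area r f h = b1 ∧ area r g h = b2 ∧ area f g o = e1 ∧ area r h o' = e2) ∧
  (∀ p q : Pt, p ≠ q → ∀ e : ℝ, 0 ≤ e → ∃ o : Pt, area p q o = e) ∧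
  (∀ p q r : Pt, dt p q r ≠ 0 → ∀ b1 b2 e : ℝ, 0 ≤ b1 → 0 ≤ b2 → 0 ≤ e →
    ∃ s1 s2 : Pt, area p q s1 = b1 ∧ area p r s2 = b2 ∧ area p s1 s2 = e)

/-- The gadgets force what they should. Proof. (Col) `f, g` are on the line `pq`, `f ≠ g` and `h ≠ r` as
the last areas are not zero; `f` and `g` are on the line `rh`, so the lines `pq` and `rh` are the same.
(NC) if `r` is on the line `pq`, then so are `s1` and `s2` (which is on the line `pr`), so the last area
is `0`. -/
def SG_stmt : Prop :=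
  (∀ p q r f g h o o' : Pt, p ≠ q → area p q f = 0 → area p q g = 0 → area r f h = 0 →
    area r g h = 0 → area f g o = 1 → area r h o' = 1 → dt p q r = 0) ∧
  (∀ p q o : Pt, area p q o = 1 → p ≠ q) ∧
  (∀ p q r s1 s2 : Pt, p ≠ q → p ≠ r → area p q s1 = 0 → area p r s2 = 0 → area p s1 s2 = 1 →
    dt p q r ≠ 0)

/-! ## 2. Items -/

/-- An item `(kind, p, q, r)`: kind `0` is `Col(p,q;r)`, kind `1` is `Neq(p,q)`, kind `2` is
`NC(p;q,r)`, any other kind is `Meas(p,q,r)`. -/
abbrev Item := ℕ × ℕ × ℕ × ℕ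

def mk (p q f : ℕ) : ℕ × ℕ × ℕ := (min p q, max p q, f)

/-- The triples of an item; `b, ..., b + 4` are its fresh names. -/
def trip (b : ℕ) (it : Item) : List (ℕ × ℕ × ℕ) :=
  if it.1 = 0 then
    [mk it.2.1 it.2.2.1 b, mk it.2.1 it.2.2.1 (b + 1), (it.2.2.2, b, b + 2),
      (it.2.2.2, b + 1, b + 2), (b, b + 1, b + 3), (it.2.2.2, b + 2, b + 4)]
  else if it.1 = 1 then [mk it.2.1 it.2.2.1 b]
  else if it.1 = 2 then
    [mk it.2.1 it.2.2.1 b, mk it.2.1 it.2.2.2 (b + 1), (it.2.1, b, b + 1)]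
  else [mk it.2.1 it.2.2.1 b, mk it.2.2.1 it.2.2.2 b]

/-- The list of triples of the items `it 0, ..., it (G - 1)` on names `< N0`. -/
def sysT (N0 G : ℕ) (it : ℕ → Item) : List (ℕ × ℕ × ℕ) :=
  (List.range G).flatMap fun g => trip (N0 + 5 * g) (it g)

/-- The names of an item are `< N0` and distinct where necessary. -/
structure ItOk (N0 : ℕ) (it : Item) : Prop where
  p_lt : it.2.1 < N0
  q_lt : it.2.2.1 < N0
  r_lt : it.2.2.2 < N0
  pq : it.2.1 ≠ it.2.2.1
  pr : it.1 ≠ 0 → it.1 ≠ 1 → it.2.1 ≠ it.2.2.2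
  qr : it.1 ≠ 0 → it.1 ≠ 1 → it.1 ≠ 2 → it.2.2.1 ≠ it.2.2.2

/-- What an item imposes on the named points. -/
def Need (P : ℕ → Pt) (α β : ℝ) (it : Item) : Prop :=
  if it.1 = 0 then P it.2.1 ≠ P it.2.2.1 → dt (P it.2.1) (P it.2.2.1) (P it.2.2.2) = 0
  else if it.1 = 1 then P it.2.1 ≠ P it.2.2.1
  else if it.1 = 2 then P it.2.1 ≠ P it.2.2.1 → P it.2.1 ≠ P it.2.2.2 →
    dt (P it.2.1) (P it.2.2.1) (P it.2.2.2) ≠ 0
  else ∃ F : Pt, area (P it.2.1) (P it.2.2.1) F = α ∧ area (P it.2.2.1) (P it.2.2.2) F = β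

/-- What suffices for an item. -/
def Give (P : ℕ → Pt) (α β : ℝ) (it : Item) : Prop :=
  if it.1 = 0 then P it.2.1 ≠ P it.2.2.1 ∧ dt (P it.2.1) (P it.2.2.1) (P it.2.2.2) = 0
  else if it.1 = 1 then P it.2.1 ≠ P it.2.2.1
  else if it.1 = 2 then dt (P it.2.1) (P it.2.2.1) (P it.2.2.2) ≠ 0
  else ∃ F : Pt, area (P it.2.1) (P it.2.2.1) F = α ∧ area (P it.2.2.1) (P it.2.2.2) F = β

/-- The list is a system of triples. Proof: named `<` fresh, and fresh names of different items are
different; for each item the triples are different (`pr` for kind `3`). -/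
def TS0_stmt : Prop :=
  ∀ (N0 G : ℕ) (it : ℕ → Item), (∀ g < G, ItOk N0 (it g)) → IsSystem (sysT N0 G it)

/-- Soundness. Proof: area assignment: for `t = (i, j, k)` let `g = (k - N0) / 5`, `c = (k - N0) % 5`;
kind `0`: `0` if `c ≤ 2` and `1` if `c ≥ 3`; kind `1`: `1`; kind `2`: `1` if `N0 ≤ j`, else `0`; other kinds:
`α g` if `t = mk p q k`, else `β g`. Then use SG and `area` symmetric in the first two points. -/
def TS1_stmt : Prop :=
  ∀ (N0 G : ℕ) (it : ℕ → Item), (∀ g < G, ItOk N0 (it g)) → AreaUniversal (sysT N0 G it) →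
    ∀ α β : ℕ → ℝ, (∀ g, 0 ≤ α g ∧ 0 ≤ β g) →
      ∃ P : ℕ → Pt, ∀ g < G, Need P (α g) (β g) (it g)

/-- Completeness. Proof: given `A` take `α g = A (mk p q b)`, `β g = A (mk q r b)`, `b = N0 + 5 g`, the
named points `P` of the hypothesis, and the fresh points from CG for the item `g`, chosen for each
`g`; the point `n` is `P n` for `n < N0` and the fresh point number `(n - N0) % 5` of the item
`(n - N0) / 5` otherwise. -/
def TS2_stmt : Prop :=
  ∀ (N0 G : ℕ) (it : ℕ → Item), (∀ g < G, ItOk N0 (it g)) →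
    (∀ α β : ℕ → ℝ, (∀ g, 0 ≤ α g ∧ 0 ≤ β g) →
      ∃ P : ℕ → Pt, ∀ g < G, Give P (α g) (β g) (it g)) → AreaUniversal (sysT N0 G it)

/-! ## 3. Quadratic systems -/

/-- names: `O = 0`, `A = 1`, `B = 2`, `I = 3` and for each reference `r` five points -/
def nN (r : ℕ) : ℕ := 4 + 5 * r
def nX (r : ℕ) : ℕ := 5 + 5 * r
def nS (r : ℕ) : ℕ := 6 + 5 * r
def nM (r : ℕ) : ℕ := 7 + 5 * r
def nD (r : ℕ) : ℕ := 8 + 5 * r

/-- base items -/
def baseIt (g : ℕ) : Item :=
  if g = 0 then (1, 0, 1, 0) else if g = 1 then (1, 0, 2, 0) else if g = 2 then (1, 0, 3, 0) else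
  if g = 3 then (1, 1, 2, 0) else if g = 4 then (1, 1, 3, 0) else if g = 5 then (2, 0, 1, 2) else
  if g = 6 then (2, 0, 1, 3) else if g = 7 then (2, 0, 2, 3) else if g = 8 then (2, 1, 2, 3) else
  if g = 9 then (0, 0, 1, nN 0) else (0, 1, 3, nN 1)

/-- The items of the reference `r`; `mr` says that it is measured. -/
def blkIt (mr : Bool) (r c : ℕ) : Item :=
  if c = 0 then (0, 0, 2, nN r) else if c = 1 then (1, 2, nN r, 0) else
  if c = 2 then (0, 0, 1, nX r) else if c = 3 then (1, 1, nX r, 0) else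
  if c = 4 then (0, 1, 2, nS r) else if c = 5 then (1, 2, nS r, 0) else
  if c = 6 then (0, 2, nX 1, nM r) else if c = 7 then (0, 1, nN r, nM r) else
  if c = 8 then (0, 0, nS r, nM r) else if c = 9 then (0, 2, nX r, nD r) else
  if c = 10 then (0, 1, nN r, nD r) else if c = 11 then (0, 0, 3, nD r) else
  if mr then (3, nX 0, nX r, nX 1) else (1, 0, 1, 0)

/-- The items of the equation `k`, with the point `nK`. -/
def eqIt (Q : QSys) (nK k c : ℕ) : Item :=
  if c = 0 then (0, 2, nX (Q.ref k 1), nK) else if c = 1 then (0, 1, nN (Q.ref k 3), nK) else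
  (0, nS (Q.ref k 0), nN (Q.ref k 2), nK)

/-- number of references -/
def nR (Q : QSys) : ℕ := Q.nv + 2
/-- number of names -/
def nN0 (Q : QSys) : ℕ := 4 + 5 * nR Q + Q.m
/-- number of items -/
def nG (Q : QSys) : ℕ := 11 + 13 * nR Q + 3 * Q.m

open Classical in
/-- The items of a quadratic system; `M` is the set of the measured references. -/
noncomputable def itemOf (Q : QSys) (M : ℕ → Prop) (g : ℕ) : Item :=
  if g < 11 then baseIt g
  else if g < 11 + 13 * nR Q then blkIt (decide (M ((g - 11) / 13))) ((g - 11) / 13) ((g - 11) % 13)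
  else eqIt Q (4 + 5 * nR Q + (g - 11 - 13 * nR Q) / 3) ((g - 11 - 13 * nR Q) / 3)
    ((g - 11 - 13 * nR Q) % 3)

/-- the measured references are variables -/
def MOk (Q : QSys) (M : ℕ → Prop) : Prop := ∀ r, M r → 2 ≤ r ∧ r < nR Q

/-- All items are in order. -/
def IO_stmt : Prop :=
  ∀ (Q : QSys) (M : ℕ → Prop), Q.WF → MOk Q M → ∀ g < nG Q, ItOk (nN0 Q) (itemOf Q M g)

/-- Soundness of the construction. Proof. `O, A, B` are not collinear; let
`P = O + s (A - O) + t (B - O)`, `w = 1 - s - t`, for `I` with `s = iA`, `t = iB`, `w = iO`, all not zero as `I` is not on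
the lines `OA, OB, AB`. Let `hom P = (s / iA, t / iB, w / iO)` (not zero). `dt P P' P''` is the determinant of
`hom P, hom P', hom P''` times `dt O A B * iA * iB * iO ≠ 0`. Each reference `r`: `N_r` has `hom = (0, h2, h3)`,
`h3 ≠ 0` as `N_r ≠ B`; let `ζ r = h2 / h3`; `X_r` has `hom = (h1, 0, h3)`, `h3 ≠ 0`, `ξ r = h1 / h3`; `S_r` has
`(h1, h2, 0)`, `h1 ≠ 0`, `σ r = h2 / h1`. `M = nM r` with `hom = (m1, m2, m3)`: `m1 = ξ 1 * m3`, `m2 = ζ r * m3`,
`m2 = σ r * m1`, so `m3 ≠ 0` and `ζ r = σ r * ξ 1`; `nD r`: `m1 = ξ r * m3`, `m2 = ζ r * m3`, `m1 = m2`, so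
`ξ r = ζ r`. `ζ 0 = 0` (base item 9), `ζ 1 = 1` (base item 10), so `σ r = ζ r`. With `z v = ζ (v + 2)`:
`rval z r = ζ r`. The items of the equation `k` give `m1 = ζ r1 * m3`, `m2 = ζ r3 * m3`, `m3 ≠ 0` and
`ζ r2 * m3 - m2 + ζ r0 * m1 = 0`. All pairs `p, q` of the collinearity items are different points.
Measured: `X_r = O + (iA x / (iA x + iO)) (A - O)`, `x = ζ r`; for the areas `α, β` with `F` and
`D = dt O A F`: `|x| |iA| |D| / |iA x + iO| = 2 α`, `|1 - x| |iA iO| |D| / (|iA + iO| |iA x + iO|) = 2 β`, so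
`|x| κ β = |1 - x| α` with `κ = |iA + iO| / |iO|`. -/
def PS_stmt : Prop :=
  ∀ (Q : QSys) (M : ℕ → Prop), Q.WF → MOk Q M → ∀ (α β : ℕ → ℝ) (P : ℕ → Pt),
    (∀ g < nG Q, Need P (α g) (β g) (itemOf Q M g)) →
    ∃ (z : ℕ → ℝ) (κ : ℝ), 0 < κ ∧ (∀ k < Q.m, Q.E z k = 0) ∧
      ∀ r, M r → |rval z r| * κ * β (23 + 13 * r) = |1 - rval z r| * α (23 + 13 * r)

/-- Completeness of the construction. Proof. Let `K ≥ 1` be the bound of the hypothesis (increase it),
`ε = 1 / (4 K)`, `κ = 1 + ε`, `z` the solution for this `κ`, `δ = ε²`, so `|ε x|, |δ x| ≤ 1/4` for all the values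
`x = rval z r`. For a vector `a` let `lam a = ε a1 + δ a2 + a3` and `aff a = (a1 / lam a, a2 / lam a)`; if the
`lam` are not zero then `dt (aff a) (aff b) (aff c) = det (a, b, c) / (lam a * lam b * lam c)`, and
`aff a = aff b` only if `a, b` are proportional. Take `O = aff (0,0,1)`, `A = aff (1,0,0)`, `B = aff (0,1,0)`,
`I = aff (1,1,1)`, `N_r = aff (0,x,1)`, `X_r = aff (x,0,1)`, `S_r = aff (1,x,0)` (`lam = ε + δ x = ε (1 + ε x)`),
`nM r = aff (1,x,1)`, `nD r = aff (x,x,1)`, and for the equation `k` `aff (y1, y3, 1)`. Measured item with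
areas `α, β`: `X_0 = (0,0)`, `X_r = (x / (1 + ε x), 0)`, `X_1 = (1 / κ, 0)`, `F = (0, 2 κ (α + β))`: from
`x (α + κ β) = α` one gets `x κ (α + β) / (1 + ε x) = α` since `(1 + ε x) (α + κ β) = κ (α + β)` (if
`α = β = 0` then `F = (0,0)` and everything is clear). -/
def PC_stmt : Prop :=
  ∀ (Q : QSys) (M : ℕ → Prop), Q.WF → MOk Q M → ∀ α β : ℕ → ℝ, (∀ g, 0 ≤ α g ∧ 0 ≤ β g) →
    (∃ K : ℝ, ∀ κ : ℝ, 1 < κ → κ ≤ 2 → ∃ z : ℕ → ℝ, (∀ v < Q.nv, |z v| ≤ K) ∧
      (∀ k < Q.m, Q.E z k = 0) ∧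
      ∀ r, M r → rval z r * (α (23 + 13 * r) + κ * β (23 + 13 * r)) = α (23 + 13 * r)) →
    ∃ P : ℕ → Pt, ∀ g < nG Q, Give P (α g) (β g) (itemOf Q M g)

/-! ## 4. Formulas -/

/-- position `i` is the first occurrence of a variable with an even number -/
def Rep (tok : ℕ → ℕ) (L i : ℕ) : Prop :=
  tok i = 3 ∧ tok (i + 1) ≠ 2 ∧ ∀ i' < i, ¬ Same tok L i' i

/-- The Tseitin equations, pointwise in the universal variables. Proof. (→) `w = φ.code`, `Good w` and
`Seg (tokw w) 0 (fmToks φ)` as in `etr_iff`. Given `x` (on positions) let `X (2 k) = x i` if `i < len w` is a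
position with `Rep` whose number is `2 k` (`numv tok L (i + 1) = 2 k`; unique by `Same`), and `0` otherwise.
UETR for `X` gives `y`; `u = asg tok L y` satisfies `AllSat` (`complete`), and `u (16 i) = y (numv tok L (i + 1)) =
x i` for `Rep` positions (`asg_zero`, `dat`). (←) Given `X` let `x i = X (numv tok L (i + 1))`, take `u`, and by
`sound` the formula `φ` which holds at `rho u tok L`. Let `y n = u (16 i)` if `n` occurs at some `i < L`
(`tok i = 3`, `Seg tok (i + 1) (numToks n)`), and `y n = X n` otherwise; `y` and `rho` agree at the numbers that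
occur, so `φ.holds y` (induction on `φ`); if `n = 2 k` occurs, then for the first position `i` where it
occurs `Rep` holds and `y n = u (16 i) = x i = X n`. -/
def E1_stmt : Prop :=
  ∀ w : List Bool, UETR w = true ↔ Good w ∧ ∀ x : ℕ → ℝ, ∃ u : ℕ → ℝ,
    AllSat u (tokw w) (len w) ∧ ∀ i < len w, Rep (tokw w) (len w) i → u (16 * i) = x i

/-- The extra equations of a position: `0`, `1` are the constants, `2` is the value `x` of the position,
`3 + c` is the extra variable `c`, in the order `t, t', s, s', a, b, a2, b2, a4, b4, d, f, g`: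
`t + s = 1`, `t' + s' = 1`, `a = t s'`, `b = t' s`, `a2 = a a`, `b2 = b b`, `a4 = a2 a2`, `b4 = b2 b2`, `d = a2 b2`,
`x d + b4 = f`, `d f = g`, `d a4 = g`. -/
def tabU : List (List ℕ) := [
  [1, 3, 5, 1], [1, 4, 6, 1], [3, 6, 0, 7], [4, 5, 0, 8], [7, 7, 0, 9], [8, 8, 0, 10],
  [9, 9, 0, 11], [10, 10, 0, 12], [9, 10, 0, 13], [2, 13, 12, 14], [13, 14, 0, 15],
  [13, 11, 0, 15]]

def descU (e c : ℕ) : ℕ := (tabU.getD e []).getD c 0

/-- the reference for a description -/
def prefU (L i D : ℕ) : ℕ := if D < 2 then D else if D = 2 then 16 * i + 2 else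
  16 * L + 16 * i + (D - 3) + 2

/-- the equations of the formula system -/
def mU (L : ℕ) : ℕ := 8 * L + L * L + 1

open Classical in
/-- The quadratic system of a word. -/
noncomputable def sysU (w : List Bool) : QSys :=
  if Good w then
    ⟨32 * len w, mU (len w) + 12 * len w, fun k c =>
      if k < mU (len w) then lref (tokw w) (len w) k c
      else prefU (len w) ((k - mU (len w)) / 12) (descU ((k - mU (len w)) % 12) c)⟩
  else ⟨0, 1, fun _ c => if c ≤ 1 then 1 else 0⟩

/-- the measured references -/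
def MU (w : List Bool) (r : ℕ) : Prop :=
  Good w ∧ ∃ i < len w, Rep (tokw w) (len w) i ∧
    (r = 16 * len w + 16 * i + 2 ∨ r = 16 * len w + 16 * i + 3)

/-- The system is well formed (`lref_lt`). -/
def FW_stmt : Prop := ∀ w : List Bool, (sysU w).WF ∧ MOk (sysU w) (MU w)

/-- Soundness. Proof. If `w` is not good the system has no solution (equation `1 * 1 + 0 = 0`). By E1 let `x`
be given. For the `Rep` positions `i` choose `q > 0` with `q - 1 / q = x i`, `q = (x i + √(x i ² + 4)) / 2`, and the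
areas `α = √q, β = 1` at `t` and `α = β = 1` at `t'`. From `|t| κ = |1 - t| √q` and `|t'| κ = |1 - t'|` follow
`|a| = √q |b|` with `a = t (1 - t')`, `b = t' (1 - t)`, and `b ≠ 0` (`t' = 0` or `t = 1` are impossible), so
`a² = q b²`, `d ≠ 0`, and the equations give `x d + b⁴ = a⁴`, `x = q - 1 / q = x i` for the value `x` of the
position `i`. The first `mU` equations give `AllSat z` (see the proof of `sysOf_sat`). -/
def FS_stmt : Prop :=
  ∀ w : List Bool, (∀ α β : ℕ → ℝ, (∀ r, 0 < α r ∧ 0 < β r) →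
    ∃ (z : ℕ → ℝ) (κ : ℝ), 0 < κ ∧ (∀ k < (sysU w).m, (sysU w).E z k = 0) ∧
      ∀ r, MU w r → |rval z r| * κ * β r = |1 - rval z r| * α r) → UETR w = true

/-- Completeness. Proof. For every position `i < L` let `(α, β)` be the data at `t`, `(α', β')` at `t'`
if `i` is `Rep`. Let `x i = q - 1/q` with `q = (α β' / (α' β))²` if all four are positive, and `x i = 0` otherwise.
Take `u` from E1. For `κ` let `z = u` on `v < 16 L`; at the other positions `t = α / (α + κ β)` (`0` if
`α = β = 0`), `t' = α' / (α' + κ β')` for `Rep` positions, `t = t' = 0` otherwise, and the other extra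
variables computed from `t, t'` and `x = u (16 i)` by the equations (`f = x d + b4`, `g = d f`). The last equation
`d a4 = g`: clear if `d = 0`; otherwise all four numbers are positive, `a / b = α β' / (α' β)`, so
`x b² a² = a⁴ - b⁴`. Bounds: `t, t', s, s', a, b, .., d` are in `[0, 1]`, `|f|, |g| ≤ |x| + 1`, and the finitely many
`u v` do not depend on `κ`. -/
def FC_stmt : Prop :=
  ∀ w : List Bool, UETR w = true → ∀ α β : ℕ → ℝ, (∀ r, 0 ≤ α r ∧ 0 ≤ β r) →
    ∃ K : ℝ, ∀ κ : ℝ, 1 < κ → κ ≤ 2 → ∃ z : ℕ → ℝ, (∀ v < (sysU w).nv, |z v| ≤ K) ∧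
      (∀ k < (sysU w).m, (sysU w).E z k = 0) ∧
      ∀ r, MU w r → rval z r * (α r + κ * β r) = α r

/-! ## 5. Polynomial time, membership -/

/-- the list of triples of a word -/
noncomputable def sysW (w : List Bool) : List (ℕ × ℕ × ℕ) :=
  sysT (nN0 (sysU w)) (nG (sysU w)) (itemOf (sysU w) (MU w))

/-- The system is polynomial-time computable (as `M2`). -/
def PU_stmt : Prop :=
  Cp (fun x _ => (sysU x).nv) ∧ Cp (fun x _ => (sysU x).m) ∧
    Cp (fun x v => (sysU x).ref (v 0) (v 1)) ∧ Cq (fun x v => MU x (v 0))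

/-- The four components of `itemOf`. Proof: `Cp.ite`, from PU. -/
def PI_stmt : Prop :=
  Cp (fun x v => (itemOf (sysU x) (MU x) (v 0)).1) ∧
    Cp (fun x v => (itemOf (sysU x) (MU x) (v 0)).2.1) ∧
    Cp (fun x v => (itemOf (sysU x) (MU x) (v 0)).2.2.1) ∧
    Cp (fun x v => (itemOf (sysU x) (MU x) (v 0)).2.2.2)

/-- The word written by the reduction: `Dp.forE'` over `g`, `Dp.iteP` on the kind, `unary (e x v)` by
`Dp.forE'` with the body `[true]` and `Dp.append`. Uses: PU, PI. -/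
def PD_stmt : Prop := Dp (fun x _ => code (sysW x))

/-- The word map of PD is polynomial-time computable (see `isPolyTime_redW` in `helper39/SGE/M10`). -/
def PW_stmt : Prop := IsPolyTime (fun x : List Bool => code (sysW x))

/-- Membership: `TAU` reduces to `UETR`. Proof. Let `Z` be the number of the bits `false` of `w` and `N w a`
the number of the positions `p` with `w p = true` before which there are exactly `a` bits `false`. If
`w` is empty or its last bit is `false`, then `w = (List.range Z).flatMap (fun a => unary (N w a))`, so `w` is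
the code of at most one list of triples, and it is one if also `3 ∣ Z`: then it is the code of the list of
`(N w (3 a), N w (3 a + 1), N w (3 a + 2))`, `a < Z / 3`. If this list is a system of triples (`Cq`) write the
formula which is the conjunction over `a` of `D * D = 4 * (x a * x a)`, `D` twice the signed area, with the
universal variable `x a = var (2 a)` and the coordinates `var (4 i + 1)`, `var (4 i + 3)` of the point `i`;
otherwise write the empty word. Use `conj`, `tru`, `conj_code`, `dp_numCode` of `helper39/SGE`. -/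
def MEM_stmt : Prop := ManyOneReducible TAU UETR

end Pool.Agent.helper14.AU
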